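import Pool.Agent.TSB.TubeM
import Pool.Agent.TSQ.ToCS
import Pool.Agent.TRF.Main

/-!
# TSB/Base: the 4-sphere carries the Cappell-Shaneson structure of `(1 ∓ E10) C0`
-/

open scoped ContDiff Topology Manifold

namespace Pool.Agent.TSB
open Pool.Agent.CSG Pool.Agent.UNQ Pool.Agent.TS Pool.Agent.TRF

theorem ee_eq_ex (x : ℝ) : Pool.Agent.TRF.ee x = ex x := by
  rw [Pool.Agent.TRF.ee, ex]; congr 1; push_cast; ring

theorem det_C0 : C0.det = 1 := by decide

/-- the base case, given the local theorem `swap` -/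
theorem base_cs_of_swap (hsw : SwapStatement X4) (e : ℤ) (he : e = 1 ∨ e = -1) :
    Nonempty (CSData (Matrix.transvection 1 0 (-e) * C0) X4) := by
  obtain ⟨K⟩ := exists_KDat det_C0 (by decide) (by decide) (by decide)
  obtain ⟨D₀, D₁, hN⟩ := base_lin
  obtain ⟨k, ε₀, hε₀, h⟩ := pd_of_pair K D₀ D₁ (by
    intro u z
    rw [hN, ee_eq_ex]) e
  set ε : ℝ := min (ε₀ / 2) (min (1 / 1000) (K.δ / 10)) with hε
  have hδ := K.pos
  have h0 : 0 < ε := lt_min (by linarith) (lt_min (by norm_num) (by linarith))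
  have h1 : ε ≤ ε₀ / 2 := min_le_left _ _
  have h2 : ε ≤ 1 / 1000 := (min_le_right _ _).trans (min_le_left _ _)
  have h3 : ε ≤ K.δ / 10 := (min_le_right _ _).trans (min_le_right _ _)
  obtain ⟨D⟩ := h ε h0 (by linarith)
  exact Pool.Agent.TSQ.cs_of_pd hsw det_C0 K.ax K.isots D he h0 h2 (by linarith)

end Pool.Agent.TSB
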