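import Pool.Agent.TS.AxCut

/-!
# TSB/AxCut2: `axcut` with one more conclusion (the proof of helper75, one step added)
-/

open scoped ContDiff
open Set

namespace Pool.Agent.TSB
open Pool.Agent.CSG Pool.Agent.UNQ Pool.Agent.TS

theorem axcut2 {N : ℝ → ℝ → E3 ≃L[ℝ] E3}
    (hN : ContDiff ℝ ∞ fun q : ℝ × ℝ × E3 => N q.1 q.2.1 q.2.2)
    (hper : ∀ t τ z, N (t + 1) τ z = N t τ z) (h0 : ∀ t z, N t 0 z = z)
    (he : ∀ t τ, N t τ e₀ = e₀) {R : ℝ} (hR : 0 < R) (hR' : R ≤ 1 / 4) :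
    ∃ r₀ : ℝ, 0 < r₀ ∧ ∃ χ : ℝ → Equiv.Perm E3,
      (ContDiff ℝ ∞ fun q : E3 × ℝ => χ q.2 q.1) ∧
      (ContDiff ℝ ∞ fun q : E3 × ℝ => (χ q.2).symm q.1) ∧
      (∀ t x, χ (t + 1) x = χ t x) ∧
      (∀ t x m, χ t (x + vec m) = χ t x + vec m) ∧
      (∀ t x, R ≤ axd x → χ t x = x) ∧
      (∀ t x, axd x < R → axd (χ t x) < R) ∧
      (∀ t x, OffAx (χ t x) ↔ OffAx x) ∧
      (∀ t x, ‖Kappa_p x‖ < R → ‖Kappa_p (χ t x)‖ < R) ∧
      (∀ t x, |x 1| < r₀ → |x 2| < r₀ → χ t x = N t 1 x) := by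
  obtain ⟨C, hC0, hC1, hC2, hC3⟩ := AxCut_bounds hN hper
  set L : ℝ → ℝ → Kappa_F ≃L[ℝ] Kappa_F := fun t τ => Kappa_M (N t τ) (he t τ) with hL
  have hLa : ∀ t τ Z, L t τ Z = Kappa_p (N t τ (Kappa_i Z)) := fun t τ Z => rfl
  have hLs : ∀ t τ Z, (L t τ).symm Z = Kappa_p ((N t τ).symm (Kappa_i Z)) := fun t τ Z => rfl
  have hi : ∀ Z, ‖Kappa_i Z‖ ≤ ‖Kappa_i‖ * ‖Z‖ := fun Z => ContinuousLinearMap.le_opNorm _ _
  have hp : ∀ x, ‖Kappa_p x‖ ≤ ‖Kappa_p‖ * ‖x‖ := fun Z => ContinuousLinearMap.le_opNorm _ _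
  have hi0' : 0 ≤ ‖Kappa_i‖ := norm_nonneg _
  have hp0' : 0 ≤ ‖Kappa_p‖ := norm_nonneg _
  obtain ⟨r₀, hr0, hr1, θ, f, hθs, hθm, hθ1, hθ0, hf, hfs, hfs'⟩ := radial L
    (Kappa_p.contDiff.comp (hN.comp (contDiff_fst.prodMk ((contDiff_fst.comp contDiff_snd).prodMk
      (Kappa_i.contDiff.comp (contDiff_snd.comp contDiff_snd))))))
    (by
      intro t z
      rw [hLa, h0, Kappa_pi]) (‖Kappa_p‖ * (C * ‖Kappa_i‖))
    (by
      intro t τ z a b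
      rw [hLa]
      calc ‖Kappa_p (N t τ (Kappa_i z))‖ ≤ ‖Kappa_p‖ * ‖N t τ (Kappa_i z)‖ := hp _
        _ ≤ ‖Kappa_p‖ * (C * ‖Kappa_i z‖) := by gcongr; exact hC1 _ _ _ a b
        _ ≤ ‖Kappa_p‖ * (C * (‖Kappa_i‖ * ‖z‖)) := by gcongr; exact hi z
        _ = ‖Kappa_p‖ * (C * ‖Kappa_i‖) * ‖z‖ := by ring)
    (by
      intro t τ z a b
      rw [hLs]
      calc ‖Kappa_p ((N t τ).symm (Kappa_i z))‖ ≤ ‖Kappa_p‖ * ‖(N t τ).symm (Kappa_i z)‖ := hp _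
        _ ≤ ‖Kappa_p‖ * (C * ‖Kappa_i z‖) := by gcongr; exact hC2 _ _ _ a b
        _ ≤ ‖Kappa_p‖ * (C * (‖Kappa_i‖ * ‖z‖)) := by gcongr; exact hi z
        _ = ‖Kappa_p‖ * (C * ‖Kappa_i‖) * ‖z‖ := by ring)
    (by
      intro t τ τ' z a b a' b'
      rw [hLa, hLa, ← map_sub]
      calc ‖Kappa_p (N t τ (Kappa_i z) - N t τ' (Kappa_i z))‖
          ≤ ‖Kappa_p‖ * ‖N t τ (Kappa_i z) - N t τ' (Kappa_i z)‖ := hp _
        _ ≤ ‖Kappa_p‖ * (C * |τ - τ'| * ‖Kappa_i z‖) := by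
            gcongr; exact hC3 _ _ _ _ a b a' b'
        _ ≤ ‖Kappa_p‖ * (C * |τ - τ'| * (‖Kappa_i‖ * ‖z‖)) := by gcongr; exact hi z
        _ = ‖Kappa_p‖ * (C * ‖Kappa_i‖) * |τ - τ'| * ‖z‖ := by ring)
    R hR
  have hfM : ∀ t z, f t z = Kappa_p (N t (θ z) (Kappa_i z)) := hf
  set D : Kappa_F × ℝ → E3 := fun q =>
    (N q.2 (θ q.1) (Kappa_i q.1)) 0 • e₀ + Kappa_i (f q.2 q.1 - q.1) with hD
  have hDs : ContDiff ℝ ∞ D := by
    have h1 : ContDiff ℝ ∞ (fun q : Kappa_F × ℝ => N q.2 (θ q.1) (Kappa_i q.1)) :=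
      hN.comp (contDiff_snd.prodMk ((hθs.comp contDiff_fst).prodMk
        (Kappa_i.contDiff.comp contDiff_fst)))
    have h2 : ContDiff ℝ ∞ (fun q : Kappa_F × ℝ => (N q.2 (θ q.1) (Kappa_i q.1)) 0) :=
      (contDiff_euclidean.1 h1 0)
    exact (h2.smul contDiff_const).add (Kappa_i.contDiff.comp (hfs.sub contDiff_fst))
  have hi0 : ∀ Z, (Kappa_i Z) 0 = 0 := by
    intro Z
    rw [Kappa_i_apply, pt_zero']
  have hD0 : ∀ Z t, R ≤ ‖Z‖ → D (Z, t) = 0 := by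
    intro Z t hZ
    show (N t (θ Z) (Kappa_i Z)) 0 • e₀ + Kappa_i (f t Z - Z) = 0
    rw [hfM, hθ0 Z hZ, h0, hi0, Kappa_pi, sub_self, map_zero, zero_smul, zero_add]
  have hpD : ∀ Z t, Kappa_p (D (Z, t)) = f t Z - Z := by
    intro Z t
    show Kappa_p ((N t (θ Z) (Kappa_i Z)) 0 • e₀ + Kappa_i (f t Z - Z)) = f t Z - Z
    rw [map_add, map_smul, Kappa_p_e, smul_zero, zero_add, Kappa_pi]
  obtain ⟨χ, c1, c2, c3, c4, c5, c6, c7⟩ := AxCut_core hR hR' hfs' hDs hD0 hpD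
    (by intro t; rw [hfM, map_zero, map_zero, map_zero])
  have hf1 : ∀ t Z, R ≤ ‖Z‖ → f t Z = Z := by
    intro t Z hZ
    have h1 := hpD Z t
    rw [hD0 Z t hZ, map_zero] at h1
    exact (sub_eq_zero.1 h1.symm)
  have c8 : ∀ t x, ‖Kappa_p x‖ < R → ‖Kappa_p (χ t x)‖ < R := by
    intro t x hx
    set Z := Kappa_p x with hZ
    have hz0 : Kappa_z 0 + Z = Z := by
      ext j
      rw [PiLp.add_apply, Kappa_z_apply]
      simp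
    have hred : Kappa_red Z = Z := by
      have h1 := Kappa_red_small (Z := Z) (by
        intro j
        have := Kappa_coord_le Z j
        linarith) 0
      rwa [hz0] at h1
    rw [c3, map_add, hpD, ← hZ, hred, add_sub_cancel]
    by_contra hcon
    push Not at hcon
    have h1 := hf1 t (f t Z) hcon
    have h2 := (f t).injective h1
    rw [h2] at hcon
    linarith
  refine ⟨r₀ / 2, by linarith, χ, c1, c2, ?_, c4, c5, c6, c7, c8, ?_⟩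
  · intro t x
    rw [c3, c3]
    congr 1
    show (N (t + 1) (θ _) (Kappa_i _)) 0 • e₀ + Kappa_i (f (t + 1) _ - _) =
      (N t (θ _) (Kappa_i _)) 0 • e₀ + Kappa_i (f t _ - _)
    rw [hfM, hfM, hper]
  · intro t x hx1 hx2
    obtain ⟨hZn, hred⟩ := AxCut_near (hr1.trans_le hR') hx1 hx2
    rw [c3, hred]
    show x + ((N t (θ (Kappa_p x)) (Kappa_i (Kappa_p x))) 0 • e₀ +
      Kappa_i (f t (Kappa_p x) - Kappa_p x)) = N t 1 x
    rw [hfM, hθ1 _ hZn]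
    exact AxCut_lin (N t 1) (he t 1) x


end Pool.Agent.TSB
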