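import Pool.Agent.TS.PLin

/-!
# TSB/Def: P-data with normalised binding and an arbitrary tube around the surgered circle

`PB κ k X`: monodromy `κ` (identity near the axes); the binding chart is exact with unit scale, for small radius
`0 < s < rb`:
`jb (θ, x, s e^{2πi(t - 1/2)}) = H (pt x (Im r) (Re r), t)`, `r = s e^{2πi (θ + k (t - 1/2))}`;
the tube fields (`δ`, `f`, `N`, `gluec`) are those of `PDlin`.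
-/

open scoped Manifold ContDiff
open Complex (I)

namespace Pool.Agent.TSB
open Pool.Agent.CSG Pool.Agent.TS

structure PB (κ : Equiv.Perm E3) (k : ℤ) (X : Type*) [TopologicalSpace X]
    [ChartedSpace E4 X] where
  H : E3 × ℝ → X
  jb : ℝ × ℝ × ℂ → X
  jc : S2 × ℂ → X
  rb : ℝ
  δ : ℝ
  f : ℝ × E3 → E3
  N : ℝ → E3 ≃L[ℝ] E3
  H_loc : ∀ x t, -(1 / 8) < t → t < 9 / 8 → OffAx x → ¬ OnC x t →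
    IsLocalDiffeomorphAt 𝓘(ℝ, E3 × ℝ) (𝓡 4) ∞ H (x, t)
  H_per : ∀ x t m, -(1 / 8) < t → t < 9 / 8 → OffAx x → H (x + vec m, t) = H (x, t)
  H_mon : ∀ x t, -(1 / 8) < t → t < 1 / 8 → OffAx x → H (κ x, t) = H (x, t + 1)
  H_inj : ∀ x y s t, OffAx x → ¬ OnC x s → OffAx y → ¬ OnC y t → 0 ≤ s → s < 1 → 0 ≤ t → t < 1 →
    H (x, s) = H (y, t) → s = t ∧ ∃ m, y = x + vec m
  rb_pos : 0 < rb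
  jb_per : ∀ θ x ζ (a b : ℤ), jb (θ + a, x + b, ζ) = jb (θ, x, ζ)
  jb_loc : ∀ θ x ζ, ‖ζ‖ < 1 → IsLocalDiffeomorphAt 𝓘(ℝ, ℝ × ℝ × ℂ) (𝓡 4) ∞ jb (θ, x, ζ)
  jb_inj : ∀ θ x ζ θ' x' ζ', ‖ζ‖ < 1 → ‖ζ'‖ < 1 → jb (θ, x, ζ) = jb (θ', x', ζ') →
    (∃ a : ℤ, θ' = θ + a) ∧ (∃ b : ℤ, x' = x + b) ∧ ζ' = ζ
  jc_loc : ∀ y ζ, ‖ζ‖ < 1 →
    IsLocalDiffeomorphAt ((𝓡 2).prod 𝓘(ℝ, ℂ)) (𝓡 4) ∞ jc (y, ζ)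
  jc_inj : ∀ y y' ζ ζ', ‖ζ‖ < 1 → ‖ζ'‖ < 1 → jc (y, ζ) = jc (y', ζ') → y = y' ∧ ζ = ζ'
  glueb : ∀ θ x t s : ℝ, -(1 / 8) < t → t < 9 / 8 → 0 < s → s < rb →
    jb (θ, x, s * ex (t - 1 / 2)) =
      H (pt x (s * ex (θ + k * (t - 1 / 2))).im (s * ex (θ + k * (t - 1 / 2))).re, t)
  δ_pos : 0 < δ
  δ_lt : δ < 1 / 8
  f_smooth : ∀ u v, ‖v‖ < δ → ContDiffAt ℝ ∞ f (u, v)
  f_per : ∀ u v, f (u + 1, v) = f (u, v)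
  f_zero : ∀ u, f (u, 0) = 0
  f_ne : ∀ u v, ‖v‖ < δ → v ≠ 0 → f (u, v) ≠ 0
  f_lt : ∀ u v, ‖v‖ < δ → ‖f (u, v)‖ < 1
  N_smooth : ContDiff ℝ ∞ fun q : ℝ × E3 => N q.1 q.2
  f_deriv : ∀ u, HasFDerivAt (fun v => f (u, v)) (N u : E3 →L[ℝ] E3) 0
  gluec : ∀ (u : ℝ) (v : E3), ‖v‖ < δ → v ≠ 0 →
    H (pt (1 / 2 + v 0) u (1 / 2 + v 2), 1 / 2 + v 1) =
      jc (dir (f (u, v)), (‖f (u, v)‖ : ℂ) * ex u)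
  disjb : ∀ θ x₀ x t, OffAx x → ¬ OnC x t → 0 ≤ t → t < 1 → jb (θ, x₀, 0) ≠ H (x, t)
  disjc : ∀ y x t, OffAx x → ¬ OnC x t → 0 ≤ t → t < 1 → jc (y, 0) ≠ H (x, t)
  disjbc : ∀ y θ x₀, jc (y, 0) ≠ jb (θ, x₀, 0)
  cover : ∀ q : X, (∃ θ x₀, q = jb (θ, x₀, 0)) ∨ (∃ y, q = jc (y, 0)) ∨
    ∃ x t, OffAx x ∧ ¬ OnC x t ∧ 0 ≤ t ∧ t < 1 ∧ q = H (x, t)

end Pool.Agent.TSB
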