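import Pool.Agent.TSB.Per
import Pool.Agent.TS.PLin
import Pool.Agent.CSG.LDb

/-!
# TSB/Refl: reflection of the binding chart
-/

open scoped ContDiff Topology Manifold
open Set Filter

namespace Pool.Agent.TSB
open Pool.Agent.CSG Pool.Agent.UNQ Pool.Agent.TS

noncomputable section

/-- reflection of the last coordinate -/
def Rf : E3 ≃L[ℝ] E3 := Up 0 (-1) (by norm_num)

theorem Rf_pt (a b c : ℝ) : Rf (pt a b c) = pt a b (-c) := by
  rw [Rf, Up_apply]; apply ext3 <;> simp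

/-- reordering -/
def ngE : (ℝ × ℝ × ℂ) ≃ (ℝ × ℝ × ℂ) where
  toFun p := (-p.1, p.2)
  invFun p := (-p.1, p.2)
  left_inv p := by simp
  right_inv p := by simp

theorem ngE_ld (p : ℝ × ℝ × ℂ) :
    IsLocalDiffeomorphAt 𝓘(ℝ, ℝ × ℝ × ℂ) 𝓘(ℝ, ℝ × ℝ × ℂ) ∞ ngE p := by
  apply ld_of_perm
  · exact contDiff_fst.neg.prodMk contDiff_snd
  · exact contDiff_fst.neg.prodMk contDiff_snd

variable {C : Matrix (Fin 3) (Fin 3) ℤ} {X : Type*} [TopologicalSpace X] [ChartedSpace E4 X]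

/-- the reflected data -/
def refl (D : PDlin C X) : PDlin C X where
  H := D.H
  jb p := D.jb (-p.1, p.2)
  jc := D.jc
  P t := Rf.trans (D.P t)
  δ := D.δ
  f := D.f
  N := D.N
  H_loc := D.H_loc
  H_per := D.H_per
  H_mon := D.H_mon
  H_inj := D.H_inj
  P_smooth := fam_comp (P := D.P) (Q := fun _ => Rf) D.P_smooth (fam_const Rf)
  P_mon t z := D.P_mon t (Rf z)
  P_ax t a := by
    show D.P t (Rf (pt a 0 0)) = _
    rw [Rf_pt, neg_zero, D.P_ax]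
  P_size t a y₁ y₂ h := by
    show |D.P t (Rf (pt a y₁ y₂)) 1| < 1 / 4 ∧ |D.P t (Rf (pt a y₁ y₂)) 2| < 1 / 4
    rw [Rf_pt]
    exact D.P_size t a y₁ (-y₂) (by rw [neg_sq]; exact h)
  jb_per θ x ζ a b := by
    show D.jb (-(θ + a), x + b, ζ) = D.jb (-θ, x, ζ)
    have := D.jb_per (-θ) x ζ (-a) b
    rw [← this]
    congr 2
    push_cast; ring
  jb_loc θ x ζ h := by
    have h1 := D.jb_loc (-θ) x ζ h
    exact IsLocalDiffeomorphAt.comp (hf := ngE_ld (θ, x, ζ)) (hg := h1) ..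
  jb_inj θ x ζ θ' x' ζ' h h' heq := by
    obtain ⟨⟨a, ha⟩, hb, hc⟩ := D.jb_inj (-θ) x ζ (-θ') x' ζ' h h' heq
    exact ⟨⟨-a, by push_cast; linarith⟩, hb, hc⟩
  jc_loc := D.jc_loc
  jc_inj := D.jc_inj
  glueb θ x t s h0 h1 hs hs1 := by
    show D.jb (-θ, x, s * ex t) = D.H (D.P t (Rf _), t)
    rw [Rf_pt, D.glueb (-θ) x t s h0 h1 hs hs1]
    rw [show 2 * Real.pi * -θ = -(2 * Real.pi * θ) by ring, Real.cos_neg, Real.sin_neg, mul_neg]
  δ_pos := D.δ_pos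
  δ_lt := D.δ_lt
  f_smooth := D.f_smooth
  f_per := D.f_per
  f_zero := D.f_zero
  f_ne := D.f_ne
  f_lt := D.f_lt
  N_smooth := D.N_smooth
  f_deriv := D.f_deriv
  gluec := D.gluec
  disjb θ x₀ x t := D.disjb (-θ) x₀ x t
  disjc := D.disjc
  disjbc y θ x₀ := D.disjbc y (-θ) x₀
  cover q := by
    rcases D.cover q with ⟨θ, x₀, h⟩ | h | h
    · exact Or.inl ⟨-θ, x₀, by rw [h]; simp⟩
    · exact Or.inr (Or.inl h)
    · exact Or.inr (Or.inr h)

end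

end Pool.Agent.TSB
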