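import Pool.Agent.TSB.AxCut2
import Pool.Agent.TSB.Refl
import Pool.Agent.TSB.Def

/-!
# TSB/Bind: normalisation of the monodromy and of the binding
-/

open scoped ContDiff Topology Manifold
open Set Filter
open Complex (I)

namespace Pool.Agent.TSB
open Pool.Agent.CSG Pool.Agent.UNQ Pool.Agent.TS

/-- the isotopy from `act C` to a monodromy which is the identity near the axes (from `exists_isots'`) -/
structure KDat (C : Matrix (Fin 3) (Fin 3) ℤ) where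
  κ₀ : Equiv.Perm E3
  δ : ℝ
  pos : 0 < δ
  mono : Mono C κ₀
  ax : AxMono κ₀ δ
  axis : ∀ x, |x 1| < δ → |x 2| < δ → κ₀ x = x
  B : ℝ → E3 ≃L[ℝ] E3
  κ : ℝ → Equiv.Perm E3
  B_smooth : ContDiff ℝ ∞ fun q : ℝ × E3 => B q.1 q.2
  B_zero : ∀ z, B 0 z = z
  B_e : ∀ τ, B τ e₀ = e₀
  B_one : ∀ z, act C (B 1 z) = z
  κ_smooth : ContDiff ℝ ∞ fun q : E3 × ℝ => κ q.2 q.1
  κ_smooth' : ContDiff ℝ ∞ fun q : E3 × ℝ => (κ q.2).symm q.1
  κ_lat : ∀ t x m, κ t (x + vec m) = κ t x + vec m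
  κ_start : ∀ t, t ≤ 1 / 4 → κ t = 1
  κ_stop : ∀ t, 3 / 4 ≤ t → κ t = κ 1
  κ_near : ∀ t x, |x 1| < δ → |x 2| < δ → κ t x = B (stp (1 / 4) (3 / 4) t) x
  κ_far : ∀ t x, 1 / 4 ≤ axd x → κ t x = x
  κ_off : ∀ t x, OffAx (κ t x) ↔ OffAx x
  κ₀_eq : ∀ x, κ₀ x = act C (κ 1 x)
  isots : ∀ (k : ℤ) (B : Equiv.Perm E3),
        (∀ x, B x = act (Matrix.transvection 1 0 k * C) x) →
        ∃ Ψ : Isot, B * Ψ.ψ 1 = sh (fun y _ => k * lam y) * κ₀

theorem exists_KDat {C : Matrix (Fin 3) (Fin 3) ℤ} (hC : C.det = 1) (h0 : C 0 0 = 1)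
    (h1 : C 1 0 = 0) (h2 : C 2 0 = 0) : Nonempty (KDat C) := by
  obtain ⟨κ₀, δ, hδ, hm, hax, ⟨B, κ, a1, a2, a3, a4, a5, a6, a7, a8, a9, a10, a11, a12, a13⟩, hi⟩ :=
    exists_isots' hC h0 h1 h2
  refine ⟨⟨κ₀, δ, hδ, hm, hax, ?_, B, κ, a1, a2, a3, a4, a5, a6, a7, a8, a9, a10, a11, a12, a13, hi⟩⟩
  intro x hx1 hx2
  exact hax.axis x hx1 hx2

/-- rounding to the nearest axis -/
noncomputable def rdv (x : E3) : Fin 3 → ℤ := ![0, round (x 1), round (x 2)]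

theorem coord_axd (x : E3) : |x 1 - round (x 1)| ≤ axd x ∧ |x 2 - round (x 2)| ≤ axd x := by
  unfold axd
  have h : ∀ Z : Kappa_F, ∀ j, |Z j| ≤ ‖Z‖ := fun Z j => Kappa_coord_le Z j
  have h0 := h (Kappa_red (Kappa_p x)) 0
  have h1 := h (Kappa_red (Kappa_p x)) 1
  rw [Kappa_red_apply, Kappa_p_zero] at h0
  rw [Kappa_red_apply, Kappa_p_one] at h1
  exact ⟨h0, h1⟩

theorem axd_ge_of_half {x : E3} {b : ℤ} {c : ℝ} (h : x 2 = b + 1 / 2 + c) (hc : |c| ≤ 1 / 8) :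
    1 / 4 ≤ axd x := by
  refine le_trans ?_ (coord_axd x).2
  have hr := abs_sub_round (x 2)
  obtain ⟨c1, c2⟩ := abs_le.mp hc
  by_contra hcon
  push Not at hcon
  obtain ⟨h1, h2⟩ := abs_lt.mp hcon
  have e1 : ((round (x 2) - b : ℤ) : ℝ) < 1 := by push_cast; linarith
  have e2 : (0 : ℝ) < ((round (x 2) - b : ℤ) : ℝ) := by push_cast; linarith
  have e3 : round (x 2) - b < 1 := by exact_mod_cast e1
  have e4 : 0 < round (x 2) - b := by exact_mod_cast e2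
  omega

theorem ex_neg_half (t : ℝ) : ex (t - 1 / 2) = -ex t := by
  rw [ex, ex, show ((2 * Real.pi * (t - 1 / 2) : ℝ) : ℂ) * I =
    ((2 * Real.pi * t : ℝ) : ℂ) * I - Real.pi * I by push_cast; ring, Complex.exp_sub,
    Complex.exp_pi_mul_I]
  ring

/-- reordering of coordinates -/
noncomputable def ng2E : (ℝ × ℝ × ℂ) ≃ (ℝ × ℝ × ℂ) where
  toFun p := (-p.1, p.2.1, -p.2.2)
  invFun p := (-p.1, p.2.1, -p.2.2)
  left_inv p := by simp
  right_inv p := by simp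

theorem ng2E_ld (p : ℝ × ℝ × ℂ) :
    IsLocalDiffeomorphAt 𝓘(ℝ, ℝ × ℝ × ℂ) 𝓘(ℝ, ℝ × ℝ × ℂ) ∞ ng2E p := by
  have h : ContDiff ℝ ∞ fun p : ℝ × ℝ × ℂ => (-p.1, p.2.1, -p.2.2) :=
    contDiff_fst.neg.prodMk ((contDiff_fst.comp contDiff_snd).prodMk
      (contDiff_snd.comp contDiff_snd).neg)
  exact ld_of_perm (f := ng2E) h h p

/-- the rotation `Wt` in coordinates -/
theorem Wt_pt (k : ℤ) (t x θ s : ℝ) :
    Wt k t (pt x (s * ex (θ + k * (t - 1 / 2))).im (s * ex (θ + k * (t - 1 / 2))).re) =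
      pt x (s * Real.cos (2 * Real.pi * -θ)) (s * Real.sin (2 * Real.pi * -θ)) := by
  set φ : ℝ := 2 * Real.pi * (k * (t - 1 / 2)) with hφ
  have e1 : (s * ex (θ + k * (t - 1 / 2))).re = s * Real.cos (2 * Real.pi * θ + φ) := by
    rw [ex, Complex.re_ofReal_mul, Complex.exp_ofReal_mul_I_re]
    congr 2; rw [hφ]; ring
  have e2 : (s * ex (θ + k * (t - 1 / 2))).im = s * Real.sin (2 * Real.pi * θ + φ) := by
    rw [ex, Complex.im_ofReal_mul, Complex.exp_ofReal_mul_I_im]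
    congr 2; rw [hφ]; ring
  have e3 : (Complex.exp (rh k t)).re = Real.sin φ := by
    rw [rh, Complex.exp_ofReal_mul_I_re, ← hφ, Real.cos_sub_pi_div_two]
  have e4 : (Complex.exp (rh k t)).im = -Real.cos φ := by
    rw [rh, Complex.exp_ofReal_mul_I_im, ← hφ, Real.sin_sub_pi_div_two]
  rw [e1, e2, Wt, rotE_apply]
  have hcs := Real.sin_sq_add_cos_sq φ
  rw [show 2 * Real.pi * -θ = -(2 * Real.pi * θ) by ring, Real.cos_neg, Real.sin_neg]
  apply ext3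
  · rw [cm0]; simp
  · rw [cm1, e3, e4]
    simp only [pt_zero', pt_one', pt_two']
    rw [Real.sin_add, Real.cos_add]
    linear_combination (s * Real.cos (2 * Real.pi * θ)) * hcs
  · rw [cm2, e3, e4]
    simp only [pt_zero', pt_one', pt_two']
    rw [Real.sin_add, Real.cos_add]
    linear_combination (-(s * Real.sin (2 * Real.pi * θ))) * hcs

variable {C : Matrix (Fin 3) (Fin 3) ℤ}

/-- the loop of the binding -/
theorem exists_Q (K : KDat C) {P : ℝ → E3 ≃L[ℝ] E3} (hP : ContDiff ℝ ∞ fun q : ℝ × E3 => P q.1 q.2)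
    (hm : ∀ t z, act C (P (t + 1) z) = P t z) (hax : ∀ t a, P t (pt a 0 0) = pt a 0 0) :
    ∃ Q : ℝ → E3 ≃L[ℝ] E3, (ContDiff ℝ ∞ fun q : ℝ × E3 => Q q.1 q.2) ∧
      (∀ t z, Q (t + 1) z = Q t z) ∧ (∀ t, Q t e₀ = e₀) ∧
      ∀ t z, -(1 / 4) < t → t < 5 / 4 → K.B (stp (1 / 4) (3 / 4) t) (Q t z) = P t z := by
  set st : ℝ → ℝ := stp (1 / 4) (3 / 4) with hst
  have hsts : ContDiff ℝ ∞ st := stp_smooth _ _
  have h1 : ContDiff ℝ ∞ fun q : ℝ × E3 => ((P q.1).trans (K.B (st q.1)).symm) q.2 := by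
    have h2 : ContDiff ℝ ∞ fun q : ℝ × E3 => K.B (st q.1) q.2 :=
      fam_pre (P := K.B) K.B_smooth hsts
    exact fam_comp (P := fun t => (K.B (st t)).symm) (Q := P)
      (fam_symm (P := fun t => K.B (st t)) h2) hP
  have hlo : ∀ t z, t ≤ 1 / 4 → (K.B (st t)).symm z = z := by
    intro t z ht
    have h3 : st t = 0 := stp_zero (by norm_num) ht
    rw [h3, ContinuousLinearEquiv.symm_apply_eq, K.B_zero]
  have hhi : ∀ t z, 3 / 4 ≤ t → (K.B (st t)).symm z = act C z := by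
    intro t z ht
    have h3 : st t = 1 := stp_one (by norm_num) ht
    have h4 := K.B_one ((K.B 1).symm z)
    rw [ContinuousLinearEquiv.apply_symm_apply] at h4
    rw [h3, h4]
  obtain ⟨Q, q1, q2, q3⟩ := per_ext (Q' := fun t => (P t).trans (K.B (st t)).symm) h1 (by
    intro t z ht0 ht1
    show (K.B (st (t + 1))).symm (P (t + 1) z) = (K.B (st t)).symm (P t z)
    rw [hhi _ _ (by linarith), hlo _ _ (by linarith), hm])
  have hval : ∀ t z, -(1 / 4) < t → t < 5 / 4 → Q t z = (K.B (st t)).symm (P t z) := q3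
  refine ⟨Q, q1, q2, ?_, ?_⟩
  · intro t
    have hp : Function.Periodic (fun t => Q t e₀) 1 := fun t => q2 t e₀
    have h5 : Q t e₀ = Q (Int.fract t) e₀ := by
      have h6 := hp.sub_int_mul_eq (x := t) ⌊t⌋
      rw [mul_one] at h6
      exact h6.symm
    rw [h5, hval _ _ (by linarith [Int.fract_nonneg t]) (by linarith [Int.fract_lt_one t])]
    have h6 : P (Int.fract t) e₀ = e₀ := hax _ 1
    rw [h6, ContinuousLinearEquiv.symm_apply_eq, K.B_e]
  · intro t z ht0 ht1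
    rw [hval t z ht0 ht1, ContinuousLinearEquiv.apply_symm_apply]

theorem Mono.surj {κ₀ : Equiv.Perm E3} (hm : Mono C κ₀) (m : Fin 3 → ℤ) :
    ∃ m' : Fin 3 → ℤ, C.mulVec m' = m := by
  refine ⟨C⁻¹.mulVec m, ?_⟩
  rw [Matrix.mulVec_mulVec, Matrix.mul_nonsing_inv _ hm.unit, Matrix.one_mulVec]

/-- a family supported near the axes commutes with `κ₀` -/
theorem comm_of_near (K : KDat C) {R : ℝ} (hRδ : R ≤ K.δ) (hR4 : R ≤ 1 / 4) {χ : Equiv.Perm E3}
    (c4 : ∀ x m, χ (x + vec m) = χ x + vec m) (c5 : ∀ x, R ≤ axd x → χ x = x)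
    (c8 : ∀ x, ‖Kappa_p x‖ < R → ‖Kappa_p (χ x)‖ < R) (x : E3) : K.κ₀ (χ x) = χ (K.κ₀ x) := by
  have hk : ∀ y : E3, ‖Kappa_p y‖ < R → K.κ₀ y = y := by
    intro y hy
    have e1 := Kappa_coord_le (Kappa_p y) 0
    have e2 := Kappa_coord_le (Kappa_p y) 1
    rw [Kappa_p_zero] at e1
    rw [Kappa_p_one] at e2
    exact K.axis y (by linarith) (by linarith)
  have hdec : ∀ y : E3, y = (y - vec (rdv y)) + vec (rdv y) := fun y => by abel
  have hp : ∀ y : E3, ‖Kappa_p (y - vec (rdv y))‖ = axd y := by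
    intro y
    unfold axd
    congr 1
    ext j
    rw [Kappa_red_apply]
    fin_cases j
    · show Kappa_p (y - vec (rdv y)) 0 = Kappa_p y 0 - (round (Kappa_p y 0) : ℝ)
      rw [Kappa_p_zero, Kappa_p_zero]; rfl
    · show Kappa_p (y - vec (rdv y)) 1 = Kappa_p y 1 - (round (Kappa_p y 1) : ℝ)
      rw [Kappa_p_one, Kappa_p_one]; rfl
  rcases lt_or_ge (axd x) R with h | h
  · set x' := x - vec (rdv x) with hx'
    have h1 : ‖Kappa_p x'‖ < R := by rw [hx', hp]; exact h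
    have h2 : x = x' + vec (rdv x) := hdec x
    rw [h2, c4, K.mono.lat, K.mono.lat, hk _ (c8 x' h1), hk x' h1, c4]
  · have h1 : R ≤ axd (K.κ₀ x) := by
      by_contra hcon
      push Not at hcon
      set y := K.κ₀ x with hy
      set y' := y - vec (rdv y) with hy'
      have h2 : ‖Kappa_p y'‖ < R := by rw [hy', hp]; exact hcon
      obtain ⟨m', hm'⟩ := Mono.surj K.mono (rdv y)
      have h3 : K.κ₀ (y' + vec m') = y := by
        rw [K.mono.lat, hk y' h2, hm', hy']; abel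
      have h4 : x = y' + vec m' := K.κ₀.injective (by rw [h3])
      rw [h4, axd_add_vec] at h
      have h5 : axd y' = axd y := by rw [hy', ← axd_add_vec (y - vec (rdv y)) (rdv y)]; congr 1; abel
      rw [h5] at h
      linarith
    rw [c5 x h, c5 _ h1]

end Pool.Agent.TSB
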