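import Pool.Agent.TSB.Bind

/-!
# TSB/BindM: `PDlin C X → PB κ₀ k X`
-/

open scoped ContDiff Topology Manifold
open Set Filter
open Complex (I)

namespace Pool.Agent.TSB
open Pool.Agent.CSG Pool.Agent.UNQ Pool.Agent.TS

variable {C : Matrix (Fin 3) (Fin 3) ℤ} {X : Type*} [TopologicalSpace X] [ChartedSpace E4 X]

theorem ex_norm' (x : ℝ) : ‖ex x‖ = 1 := by rw [ex, Complex.norm_exp_ofReal_mul_I]

theorem bind_pos (K : KDat C) (D : PDlin C X) {Q : ℝ → E3 ≃L[ℝ] E3}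
    (q1 : ContDiff ℝ ∞ fun q : ℝ × E3 => Q q.1 q.2) (q2 : ∀ t z, Q (t + 1) z = Q t z)
    (q3 : ∀ t, Q t e₀ = e₀)
    (q4 : ∀ t z, -(1 / 4) < t → t < 5 / 4 → K.B (stp (1 / 4) (3 / 4) t) (Q t z) = D.P t z)
    (hdt : ∀ t, 0 < dt (Q t)) :
    ∃ k : ℤ, ∃ E : PB K.κ₀ k X, E.jc = D.jc ∧ E.δ = D.δ ∧ E.f = D.f ∧ E.N = D.N := by
  obtain ⟨k, N, n1, n2, n3, n4, n5⟩ := loop_norm q1 q2 q3 hdt
  set R : ℝ := min (1 / 4) K.δ with hR
  have hR0 : 0 < R := lt_min (by norm_num) K.pos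
  have hR4 : R ≤ 1 / 4 := min_le_left _ _
  have hRδ : R ≤ K.δ := min_le_right _ _
  obtain ⟨r₀, hr0, χ, c1, c2, c3, c4, c5, c6, c7, c8, c9⟩ := axcut2 n1 n2 n3 n4 hR0 hR4
  obtain ⟨L, hL0, hL⟩ := loop_bound q1 q2
  -- the composite
  set Ψ : ℝ → Equiv.Perm E3 := fun t => K.κ t * χ t with hΨ
  have hΨa : ∀ t x, Ψ t x = K.κ t (χ t x) := fun _ _ => rfl
  have hΨs : ContDiff ℝ ∞ fun q : E3 × ℝ => Ψ q.2 q.1 :=
    K.κ_smooth.comp (c1.prodMk contDiff_snd)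
  have hΨs' : ContDiff ℝ ∞ fun q : E3 × ℝ => (Ψ q.2).symm q.1 :=
    c2.comp (K.κ_smooth'.prodMk contDiff_snd)
  have hΨlat : ∀ t x m, Ψ t (x + vec m) = Ψ t x + vec m := by
    intro t x m; rw [hΨa, hΨa, c4, K.κ_lat]
  have hΨfar : ∀ t x, 1 / 4 ≤ axd x → Ψ t x = x := by
    intro t x hx; rw [hΨa, c5 t x (hR4.trans hx), K.κ_far t x hx]
  have hΨoff : ∀ t x, OffAx (Ψ t x) ↔ OffAx x := by
    intro t x; rw [hΨa, K.κ_off, c7]
  have hCax : ∀ {x : E3} {t : ℝ}, OnC x t → 1 / 4 ≤ axd x := by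
    rintro x t ⟨_, _, b, hb⟩
    exact axd_ge_of_half (c := 0) (b := b) (by rw [hb]; ring) (by norm_num)
  have hΨC : ∀ t x, OnC (Ψ t x) t ↔ OnC x t := by
    intro t x
    constructor
    · intro h
      have h1 := hΨfar t (Ψ t x) (hCax h)
      have h2 := (Ψ t).injective h1
      rwa [h2] at h
    · intro h
      rwa [hΨfar t x (hCax h)]
  have hld : ∀ x t, IsLocalDiffeomorphAt 𝓘(ℝ, E3 × ℝ) 𝓘(ℝ, E3 × ℝ) ∞
      (fun q : E3 × ℝ => (Ψ q.2 q.1, q.2)) (x, t) := fun x t => ld_of_family hΨs hΨs' x t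
  set H₂ : E3 × ℝ → X := fun q => D.H (Ψ q.2 q.1, q.2) with hH₂
  -- the radius
  set rb : ℝ := min (min r₀ (K.δ / (L + 1))) 1 with hrb
  have hL1 : 0 < L + 1 := by linarith
  have hrb0 : 0 < rb := lt_min (lt_min hr0 (div_pos K.pos hL1)) one_pos
  have hrb1 : rb ≤ r₀ := (min_le_left _ _).trans (min_le_left _ _)
  have hrb2 : rb ≤ K.δ / (L + 1) := (min_le_left _ _).trans (min_le_right _ _)
  have hrb3 : rb ≤ 1 := min_le_right _ _
  have hδ1 : D.δ < 1 / 8 := D.δ_lt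
  refine ⟨k, {
    H := H₂
    jb := fun p => D.jb (-p.1, p.2.1, -p.2.2)
    jc := D.jc
    rb := rb
    δ := D.δ
    f := D.f
    N := D.N
    H_loc := ?_
    H_per := ?_
    H_mon := ?_
    H_inj := ?_
    rb_pos := hrb0
    jb_per := ?_
    jb_loc := ?_
    jb_inj := ?_
    jc_loc := D.jc_loc
    jc_inj := D.jc_inj
    glueb := ?_
    δ_pos := D.δ_pos
    δ_lt := D.δ_lt
    f_smooth := D.f_smooth
    f_per := D.f_per
    f_zero := D.f_zero
    f_ne := D.f_ne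
    f_lt := D.f_lt
    N_smooth := D.N_smooth
    f_deriv := D.f_deriv
    gluec := ?_
    disjb := ?_
    disjc := ?_
    disjbc := ?_
    cover := ?_ }, rfl, rfl, rfl, rfl⟩
  · intro x t ht0 ht1 hx hC
    have h1 := D.H_loc (Ψ t x) t ht0 ht1 ((hΨoff t x).mpr hx) (mt (hΨC t x).mp hC)
    exact IsLocalDiffeomorphAt.comp (hf := hld x t) (hg := h1) ..
  · intro x t m ht0 ht1 hx
    show D.H (Ψ t (x + vec m), t) = D.H (Ψ t x, t)
    rw [hΨlat, D.H_per _ t m ht0 ht1 ((hΨoff t x).mpr hx)]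
  · intro x t ht0 ht1 hx
    show D.H (Ψ t (K.κ₀ x), t) = D.H (Ψ (t + 1) x, t + 1)
    have e1 : K.κ₀ (χ t x) = χ t (K.κ₀ x) := comm_of_near K hRδ hR4 (c4 t) (c5 t) (c8 t) x
    have e2 : χ (t + 1) x = χ t x := c3 t x
    have e3 : Ψ (t + 1) x = K.κ 1 (χ t x) := by
      rw [hΨa, e2, K.κ_stop (t + 1) (by linarith)]
    have e4 : Ψ t (K.κ₀ x) = act C (K.κ 1 (χ t x)) := by
      rw [hΨa, K.κ_start t (by linarith), ← e1, K.κ₀_eq]; rfl
    have hoff : OffAx (K.κ 1 (χ t x)) := by rw [K.κ_off, c7]; exact hx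
    rw [e3, e4, D.H_mon _ t ht0 ht1 hoff]
  · intro x y s t hx hxC hy hyC hs hs1 ht ht1 h
    have h' : D.H (Ψ s x, s) = D.H (Ψ t y, t) := h
    obtain ⟨rfl, m, hm⟩ := D.H_inj (Ψ s x) (Ψ t y) s t ((hΨoff s x).mpr hx) (mt (hΨC s x).mp hxC)
      ((hΨoff t y).mpr hy) (mt (hΨC t y).mp hyC) hs hs1 ht ht1 h'
    refine ⟨rfl, m, ?_⟩
    rw [← hΨlat] at hm
    exact (Ψ s).injective hm
  · intro θ x ζ a b
    have := D.jb_per (-θ) x (-ζ) (-a) b
    show D.jb (-(θ + a), x + b, -ζ) = D.jb (-θ, x, -ζ)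
    rw [← this]
    congr 2
    push_cast; ring
  · intro θ x ζ h
    have h1 := D.jb_loc (-θ) x (-ζ) (by rw [norm_neg]; exact h)
    exact IsLocalDiffeomorphAt.comp (hf := ng2E_ld (θ, x, ζ)) (hg := h1) ..
  · intro θ x ζ θ' x' ζ' h h' heq
    obtain ⟨⟨a, ha⟩, hb, hc⟩ := D.jb_inj (-θ) x (-ζ) (-θ') x' (-ζ') (by rw [norm_neg]; exact h)
      (by rw [norm_neg]; exact h') heq
    exact ⟨⟨-a, by push_cast; linarith⟩, hb, neg_injective hc⟩
  · intro θ x t s ht0 ht1 hs hs1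
    have e1 : D.jb (-θ, x, -(s * ex (t - 1 / 2))) = D.jb (-θ, x, s * ex t) := by
      rw [ex_neg_half]; congr 3; ring
    show D.jb (-θ, x, -(s * ex (t - 1 / 2))) = D.H (Ψ t _, t)
    rw [e1, D.glueb (-θ) x t s ht0 ht1 hs (hs1.trans_le hrb3)]
    have hn : ‖(s * ex (θ + k * (t - 1 / 2)) : ℂ)‖ = s := by
      rw [norm_mul, ex_norm', Complex.norm_real, Real.norm_of_nonneg hs.le, mul_one]
    have hre := Complex.abs_re_le_norm (s * ex (θ + k * (t - 1 / 2)) : ℂ)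
    have him := Complex.abs_im_le_norm (s * ex (θ + k * (t - 1 / 2)) : ℂ)
    rw [hn] at hre him
    set w : E3 := pt x (s * ex (θ + k * (t - 1 / 2))).im (s * ex (θ + k * (t - 1 / 2))).re with hw
    have hχ : χ t w = Q t (Wt k t w) := by
      rw [c9 t w (by rw [hw, pt_one']; linarith) (by rw [hw, pt_two']; linarith), n5]
    have hWt : Wt k t w = pt x (s * Real.cos (2 * Real.pi * -θ)) (s * Real.sin (2 * Real.pi * -θ)) :=
      Wt_pt k t x θ s
    set y : E3 := pt x (s * Real.cos (2 * Real.pi * -θ)) (s * Real.sin (2 * Real.pi * -θ)) with hy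
    -- bound
    have hbd : ∀ i : Fin 3, i ≠ 0 → |Q t y i| ≤ L * s := by
      intro i hi
      set y' : E3 := pt 0 (s * Real.cos (2 * Real.pi * -θ)) (s * Real.sin (2 * Real.pi * -θ)) with hy'
      have hyy : y = x • e₀ + y' := by
        apply ext3 <;> simp [hy, hy', e₀]
      have h1 : Q t y i = Q t y' i := by
        rw [hyy, map_add, map_smul, q3]
        fin_cases i
        · exact absurd rfl hi
        · simp [e₀]
        · simp [e₀]
      have h2 : ‖y'‖ = s := by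
        have h3 : ‖y'‖ ^ 2 = s ^ 2 := by
          rw [EuclideanSpace.norm_sq_eq, Fin.sum_univ_three]
          simp only [hy', pt_zero', pt_one', pt_two', Real.norm_eq_abs, sq_abs]
          have := Real.sin_sq_add_cos_sq (2 * Real.pi * -θ)
          linear_combination s ^ 2 * this
        exact (pow_left_inj₀ (norm_nonneg _) hs.le (by norm_num)).mp h3
      rw [h1, ← Real.norm_eq_abs]
      calc ‖Q t y' i‖ ≤ ‖Q t y'‖ := PiLp.norm_apply_le _ i
        _ ≤ L * ‖y'‖ := hL t y'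
        _ = L * s := by rw [h2]
    have hLs : L * s < K.δ := by
      have h1 : s < K.δ / (L + 1) := hs1.trans_le hrb2
      rw [lt_div_iff₀ hL1] at h1
      nlinarith
    have hκ : K.κ t (Q t y) = D.P t y := by
      rw [K.κ_near t (Q t y) ((hbd 1 (by decide)).trans_lt hLs) ((hbd 2 (by decide)).trans_lt hLs),
        q4 t y (by linarith) (by linarith)]
    rw [hΨa, hχ, hWt, hκ]
  · intro u v hv hv0
    have h1 : 1 / 4 ≤ axd (pt (1 / 2 + v 0) u (1 / 2 + v 2)) := by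
      have h2 : |v 2| ≤ 1 / 8 := by
        have h3 : ‖v 2‖ ≤ ‖v‖ := PiLp.norm_apply_le v 2
        rw [Real.norm_eq_abs] at h3
        linarith
      exact axd_ge_of_half (b := 0) (c := v 2) (by rw [pt_two']; push_cast; ring) h2
    show D.H (Ψ (1 / 2 + v 1) (pt (1 / 2 + v 0) u (1 / 2 + v 2)), 1 / 2 + v 1) = _
    rw [hΨfar _ _ h1]
    exact D.gluec u v hv hv0
  · intro θ x₀ x t hx hC h0 h1
    show D.jb (-θ, x₀, -0) ≠ D.H (Ψ t x, t)
    rw [neg_zero]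
    exact D.disjb (-θ) x₀ _ t ((hΨoff t x).mpr hx) (mt (hΨC t x).mp hC) h0 h1
  · intro y x t hx hC h0 h1
    exact D.disjc y _ t ((hΨoff t x).mpr hx) (mt (hΨC t x).mp hC) h0 h1
  · intro y θ x₀
    show D.jc (y, 0) ≠ D.jb (-θ, x₀, -0)
    rw [neg_zero]
    exact D.disjbc y (-θ) x₀
  · intro q
    rcases D.cover q with ⟨θ, x₀, h⟩ | h | ⟨x, t, hx, hC, h0, h1, h⟩
    · refine Or.inl ⟨-θ, x₀, ?_⟩
      show q = D.jb (- -θ, x₀, -0)
      rw [neg_neg, neg_zero, h]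
    · exact Or.inr (Or.inl h)
    · refine Or.inr (Or.inr ⟨(Ψ t).symm x, t, ?_, ?_, h0, h1, ?_⟩)
      · rw [← hΨoff t, Equiv.apply_symm_apply]; exact hx
      · rw [← hΨC t, Equiv.apply_symm_apply]; exact hC
      · show q = D.H (Ψ t ((Ψ t).symm x), t)
        rw [Equiv.apply_symm_apply]; exact h

/-- normalisation of the monodromy and of the binding -/
theorem bind_norm (K : KDat C) (D : PDlin C X) :
    ∃ k : ℤ, ∃ E : PB K.κ₀ k X, E.jc = D.jc ∧ E.δ = D.δ ∧ E.f = D.f ∧ E.N = D.N := by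
  obtain ⟨Q, q1, q2, q3, q4⟩ := exists_Q K D.P_smooth D.P_mon D.P_ax
  rcases dt_sign q1 q3 with hp | hn
  · exact bind_pos K D q1 q2 q3 q4 hp
  · have h := bind_pos K (refl D) (Q := fun t => Rf.trans (Q t))
      (fam_comp (P := Q) (Q := fun _ => Rf) q1 (fam_const Rf)) (fun t z => q2 t (Rf z))
      (fun t => by
        show Q t (Rf e₀) = e₀
        have : Rf e₀ = e₀ := Up_e _ _ _
        rw [this, q3])
      (fun t z h0 h1 => q4 t (Rf z) h0 h1) (fun t => by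
        have e1 : Rf (pt 0 1 0) = pt 0 1 0 := by rw [Rf_pt, neg_zero]
        have e2 : Rf (pt 0 0 1) = -pt 0 0 1 := by
          rw [Rf_pt]; apply ext3 <;> simp
        have := hn t
        simp only [dt] at this ⊢
        show 0 < Q t (Rf (pt 0 1 0)) 1 * Q t (Rf (pt 0 0 1)) 2 -
          Q t (Rf (pt 0 1 0)) 2 * Q t (Rf (pt 0 0 1)) 1
        rw [e1, e2, map_neg]
        simp only [PiLp.neg_apply]
        nlinarith)
    exact h

end Pool.Agent.TSB
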