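import Pool.Agent.TSB.TubeP
import Pool.Agent.UNQ.Cls
import Pool.Agent.UNQ.Par

/-!
# TSB/ELN: homotopy classes of the tube loops
-/

open scoped ContDiff Topology Manifold
open Set Filter
open Complex (I)

namespace Pool.Agent.TSB
open Pool.Agent.CSG Pool.Agent.UNQ Pool.Agent.TS

noncomputable section

/-- the rotation part of `ELe` -/
def ER (e : ℤ) (u : ℝ) : E3 ≃L[ℝ] E3 := rotE (ex (e * thc u)) (ex_ne' _)

theorem ELe_eq (e : ℤ) : ELe e = cp (fun _ => Cy) (ER e) := rfl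

theorem thc_smooth' : ContDiff ℝ ∞ thc := thc_smooth

theorem isLoop_ER (e : ℤ) : IsLoop (ER e) where
  smooth := by
    refine contDiff_cmul ?_ contDiff_snd
    exact ((Complex.ofRealCLM.contDiff.comp (contDiff_const.mul (contDiff_const.mul
      (thc_smooth.comp contDiff_fst)))).mul contDiff_const).cexp
  per t z := by
    show cmul (ex (e * thc (t + 1))) z = cmul (ex (e * thc t)) z
    congr 1
    have h := thc_add_int t 1
    push_cast at h
    rw [h, ex, ex, show ((2 * Real.pi * (e * (thc t + 1)) : ℝ) : ℂ) * I =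
      ((2 * Real.pi * (e * thc t) : ℝ) : ℂ) * I + e * (2 * Real.pi * I) by push_cast; ring,
      Complex.exp_add, Complex.exp_int_mul_two_pi_mul_I, mul_one]

theorem isLoop_cst (B : E3 ≃L[ℝ] E3) : IsLoop fun _ => B := ⟨fam_const B, fun _ _ => rfl⟩

theorem isLoop_ELe (e : ℤ) : IsLoop (ELe e) := isLoop_cp (isLoop_cst Cy) (isLoop_ER e)

theorem ER_zero (e : ℤ) (z : E3) : ER e 0 z = z := by
  show cmul (ex (e * thc 0)) z = z
  have h : thc 0 = 0 := by
    rw [thc, Int.fract_zero, stp_zero (by norm_num) (by norm_num)]; simp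
  rw [h, ex]
  simp [cmul_one]

theorem det_id_of {B : E3 ≃L[ℝ] E3} (h : ∀ z, B z = z) :
    LinearMap.det (B.toLinearEquiv : E3 →ₗ[ℝ] E3) = 1 := by
  have : (B.toLinearEquiv : E3 →ₗ[ℝ] E3) = LinearMap.id := LinearMap.ext h
  rw [this, LinearMap.det_id]

theorem posDet_ER (e : ℤ) : PosDet (ER e) :=
  posDet_of (isLoop_ER e).smooth 0 (by rw [det_id_of (ER_zero e)]; exact one_pos)

theorem det_Cy : 0 < LinearMap.det (Cy.toLinearEquiv : E3 →ₗ[ℝ] E3) := by
  set d := LinearMap.det (Cy.toLinearEquiv : E3 →ₗ[ℝ] E3) with hd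
  have h1 : d * (d * d) = 1 := by
    rw [hd, ← LinearMap.det_comp, ← LinearMap.det_comp]
    have : (Cy.toLinearEquiv : E3 →ₗ[ℝ] E3) ∘ₗ ((Cy.toLinearEquiv : E3 →ₗ[ℝ] E3) ∘ₗ
        (Cy.toLinearEquiv : E3 →ₗ[ℝ] E3)) = LinearMap.id := by
      apply LinearMap.ext
      intro z
      show Cy (Cy (Cy z)) = z
      simp only [Cy_apply]
      apply ext3 <;> simp
    rw [this, LinearMap.det_id]
  by_contra hcon
  push Not at hcon
  nlinarith [mul_self_nonneg d]

theorem posDet_ELe (e : ℤ) : PosDet (ELe e) := posDet_cp (fun _ => det_Cy) (posDet_ER e)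

theorem cls' {L : ℝ → E3 ≃L[ℝ] E3} (hL : IsLoop L) (hpos : PosDet L) : ∃ a : ℤ, Hom L (std a) := by
  rcases cls hL hpos with h | h
  · exact ⟨0, by rw [std_zero]; exact h⟩
  · exact ⟨1, h⟩

theorem std_even {a : ℤ} (h : (2 : ℤ) ∣ a) : Hom (std a) one := by
  obtain ⟨m, rfl⟩ := h
  exact LoopE_even m

/-- the loop `rotE (e^{2πi(1/2 - u)})` -/
def rotL (u : ℝ) : E3 ≃L[ℝ] E3 := rotE (ex (1 / 2 - u)) (ex_ne' _)

theorem rotL_hom : LoopHom rotL (std (-1)) := by
  refine rot_hom (l := fun t => ((2 * Real.pi * (1 / 2 - t) : ℝ) : ℂ) * I)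
    (l' := fun t => ((2 * Real.pi * ((-1 : ℤ) : ℝ) * t : ℝ) : ℂ) * I) (-1) ?_ ?_ ?_ ?_ ?_ ?_
  · exact (Complex.ofRealCLM.contDiff.comp (contDiff_const.mul
      (contDiff_const.sub contDiff_id))).mul contDiff_const
  · exact (Complex.ofRealCLM.contDiff.comp (contDiff_const.mul contDiff_id)).mul contDiff_const
  · intro t
    push_cast; ring
  · intro t
    push_cast; ring
  · intro t z
    rfl
  · intro t z
    rfl

theorem isLoop_rotL : IsLoop rotL := isLoop_of_loopHom_left rotL_hom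

/-- one of `N`, `rotL N` is of the right class -/
theorem tube_class (e : ℤ) {N : ℝ → E3 ≃L[ℝ] E3} (hN : IsLoop N) (hpos : PosDet N) :
    Hom one (cp (ELe e) N) ∨ Hom one (cp (ELe e) (cp rotL N)) := by
  obtain ⟨a, ha⟩ := cls' hN hpos
  obtain ⟨b, hb⟩ := cls' (isLoop_ELe e) (posDet_ELe e)
  by_cases h2 : (2 : ℤ) ∣ b + a
  · left
    have h3 : Hom (cp (ELe e) N) (cp (std b) (std a)) :=
      (hb.cp_right hN).trans (ha.cp_left (isLoop_std b))
    rw [← std_add] at h3
    exact (h3.trans (std_even h2)).symm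
  · right
    have h4 : (2 : ℤ) ∣ b + (-1 + a) := by omega
    have h5 : Hom (cp rotL N) (cp (std (-1)) (std a)) :=
      ((Hom.of rotL_hom).cp_right hN).trans (ha.cp_left (isLoop_std (-1)))
    rw [← std_add] at h5
    have h3 : Hom (cp (ELe e) (cp rotL N)) (cp (std b) (std (-1 + a))) :=
      (hb.cp_right (isLoop_cp isLoop_rotL hN)).trans (h5.cp_left (isLoop_std b))
    rw [← std_add] at h3
    exact (h3.trans (std_even h4)).symm

end

end Pool.Agent.TSB
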