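import Pool.Agent.UNQ.Lift
import Pool.Agent.CSG.Kappa

/-!
# TSB/LoopN: normal form of loops of linear isomorphisms fixing `e₀`

`Q t e₀ = e₀`, `Q` periodic, with positive determinant on the plane.  Then for a suitable integer `k` the loop
`Q t ∘ rotE (-i e^{2πik(t - 1/2)})` is contractible through loops fixing `e₀`.
-/

open scoped ContDiff Topology
open Complex (I)

namespace Pool.Agent.TSB
open Pool.Agent.CSG Pool.Agent.UNQ

noncomputable section

/-- `(x, a, b) ↦ (x, a + c b, d b)` -/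
def Up (c d : ℝ) (hd : d ≠ 0) : E3 ≃L[ℝ] E3 :=
  LinearEquiv.toContinuousLinearEquiv
    { toFun := fun x => pt (x 0) (x 1 + c * x 2) (d * x 2)
      invFun := fun x => pt (x 0) (x 1 - c * (d⁻¹ * x 2)) (d⁻¹ * x 2)
      map_add' := fun x y => by ext i; fin_cases i <;> simp [pt] <;> ring
      map_smul' := fun r x => by ext i; fin_cases i <;> simp [pt] <;> ring
      left_inv := fun x => by ext i; fin_cases i <;> simp [pt] <;> field_simp <;> ring
      right_inv := fun x => by ext i; fin_cases i <;> simp [pt] <;> field_simp <;> ring }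

theorem Up_apply (c d : ℝ) (hd : d ≠ 0) (x : E3) :
    Up c d hd x = pt (x 0) (x 1 + c * x 2) (d * x 2) := rfl

/-- `(x, a, b) ↦ (x + p a + q b, a, b)` -/
def Sr (p q : ℝ) : E3 ≃L[ℝ] E3 :=
  LinearEquiv.toContinuousLinearEquiv
    { toFun := fun x => pt (x 0 + p * x 1 + q * x 2) (x 1) (x 2)
      invFun := fun x => pt (x 0 - p * x 1 - q * x 2) (x 1) (x 2)
      map_add' := fun x y => by ext i; fin_cases i <;> simp [pt] <;> ring
      map_smul' := fun r x => by ext i; fin_cases i <;> simp [pt] <;> ring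
      left_inv := fun x => by ext i; fin_cases i <;> simp [pt]; ring
      right_inv := fun x => by ext i; fin_cases i <;> simp [pt]; ring }

theorem Sr_apply (p q : ℝ) (x : E3) : Sr p q x = pt (x 0 + p * x 1 + q * x 2) (x 1) (x 2) := rfl

variable {V : Type*} [NormedAddCommGroup V] [NormedSpace ℝ V]

theorem cd_pt {f g h : V → ℝ}
    (hf : ContDiff ℝ ∞ f) (hg : ContDiff ℝ ∞ g) (hh : ContDiff ℝ ∞ h) :
    ContDiff ℝ ∞ fun v => pt (f v) (g v) (h v) := by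
  rw [contDiff_euclidean]
  intro i
  fin_cases i
  · simpa using! hf
  · simpa using! hg
  · simpa using! hh

theorem cd_co (i : Fin 3) : ContDiff ℝ ∞ fun x : E3 => x i := contDiff_euclidean.mp contDiff_id i

theorem fam_Up {c d : V → ℝ} (hd : ∀ v, d v ≠ 0) (hc : ContDiff ℝ ∞ c) (hd' : ContDiff ℝ ∞ d) :
    ContDiff ℝ ∞ fun q : V × E3 => Up (c q.1) (d q.1) (hd q.1) q.2 := by
  have h : ∀ i, ContDiff ℝ ∞ fun q : V × E3 => q.2 i := fun i => (cd_co i).comp contDiff_snd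
  exact cd_pt (h 0) ((h 1).add ((hc.comp contDiff_fst).mul (h 2))) ((hd'.comp contDiff_fst).mul (h 2))

theorem fam_Sr {p q : V → ℝ} (hp : ContDiff ℝ ∞ p) (hq : ContDiff ℝ ∞ q) :
    ContDiff ℝ ∞ fun r : V × E3 => Sr (p r.1) (q r.1) r.2 := by
  have h : ∀ i, ContDiff ℝ ∞ fun q : V × E3 => q.2 i := fun i => (cd_co i).comp contDiff_snd
  exact cd_pt (((h 0).add ((hp.comp contDiff_fst).mul (h 1))).add ((hq.comp contDiff_fst).mul (h 2)))
    (h 1) (h 2)

theorem fam_rotE {c : V → ℂ} (h0 : ∀ v, c v ≠ 0) (hc : ContDiff ℝ ∞ c) :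
    ContDiff ℝ ∞ fun q : V × E3 => rotE (c q.1) (h0 q.1) q.2 :=
  contDiff_cmul (hc.comp contDiff_fst) contDiff_snd

/-- first column of the plane part, as a complex number -/
def z1 (Q : E3 ≃L[ℝ] E3) : ℂ := (Q (pt 0 1 0) 1 : ℂ) + (Q (pt 0 1 0) 2 : ℂ) * I
/-- second column of the plane part, as a complex number -/
def z2 (Q : E3 ≃L[ℝ] E3) : ℂ := (Q (pt 0 0 1) 1 : ℂ) + (Q (pt 0 0 1) 2 : ℂ) * I
/-- determinant of the plane part -/
def dt (Q : E3 ≃L[ℝ] E3) : ℝ := Q (pt 0 1 0) 1 * Q (pt 0 0 1) 2 - Q (pt 0 1 0) 2 * Q (pt 0 0 1) 1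

theorem ext3 {x y : E3} (h0 : x 0 = y 0) (h1 : x 1 = y 1) (h2 : x 2 = y 2) : x = y := by
  ext i; fin_cases i
  · exact h0
  · exact h1
  · exact h2

theorem cm0 (c : ℂ) (z : E3) : cmul c z 0 = z 0 := by simp [cmul]
theorem cm1 (c : ℂ) (z : E3) : cmul c z 1 = c.re * z 1 - c.im * z 2 := by simp [cmul]
theorem cm2 (c : ℂ) (z : E3) : cmul c z 2 = c.re * z 2 + c.im * z 1 := by simp [cmul]

theorem e₀_eq : e₀ = pt 1 0 0 := rfl

theorem expand (Q : E3 ≃L[ℝ] E3) (hQ : Q e₀ = e₀) (x : E3) :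
    Q x = x 0 • e₀ + x 1 • Q (pt 0 1 0) + x 2 • Q (pt 0 0 1) := by
  have h : x = x 0 • e₀ + x 1 • pt 0 1 0 + x 2 • pt 0 0 1 := by
    ext i; fin_cases i <;> simp [e₀, pt]
  conv_lhs => rw [h]
  rw [map_add, map_add, map_smul, map_smul, map_smul, hQ]

theorem dt_ne {Q : E3 ≃L[ℝ] E3} (hQ : Q e₀ = e₀) : dt Q ≠ 0 := by
  intro h
  -- a vector in the kernel
  set a := Q (pt 0 1 0) with ha
  set b := Q (pt 0 0 1) with hb
  have h' : a 1 * b 2 - a 2 * b 1 = 0 := h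
  have key : ∀ p q : ℝ, p * a 1 + q * b 1 = 0 → p * a 2 + q * b 2 = 0 → p = 0 ∧ q = 0 := by
    intro p q h1 h2
    have h3 : Q (pt (-(p * a 0 + q * b 0)) p q) = 0 := by
      rw [expand Q hQ]
      ext i; fin_cases i
      · simp [e₀, ← ha, ← hb]
      · simp [e₀, ← ha, ← hb]; linarith
      · simp [e₀, ← ha, ← hb]; linarith
    have h4 : pt (-(p * a 0 + q * b 0)) p q = 0 := by
      rw [← Q.map_zero] at h3
      exact Q.injective h3
    have h5 := congrArg (fun x : E3 => x 1) h4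
    have h6 := congrArg (fun x : E3 => x 2) h4
    simp at h5 h6
    exact ⟨h5, h6⟩
  obtain ⟨h1, h2⟩ := key (b 2) (-(a 2)) (by linarith) (by ring)
  obtain ⟨h3, h4⟩ := key (b 1) (-(a 1)) (by ring) (by linarith)
  have h5 : a 1 = 0 := by linarith
  have h6 : a 2 = 0 := by linarith
  obtain ⟨h7, _⟩ := key 1 0 (by rw [h5]; ring) (by rw [h6]; ring)
  exact one_ne_zero h7

theorem z1_ne {Q : E3 ≃L[ℝ] E3} (hQ : Q e₀ = e₀) : z1 Q ≠ 0 := by
  intro h
  apply dt_ne hQ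
  have h1 := congrArg Complex.re h
  have h2 := congrArg Complex.im h
  simp [z1] at h1 h2
  rw [dt, h1, h2]; ring

/-- the decomposition `Q = rotE z₁ ∘ Up ∘ Sr` -/
theorem decomp {Q : E3 ≃L[ℝ] E3} (hQ : Q e₀ = e₀) (hd : (z2 Q / z1 Q).im ≠ 0) (x : E3) :
    Q x = rotE (z1 Q) (z1_ne hQ) (Up (z2 Q / z1 Q).re (z2 Q / z1 Q).im hd
      (Sr (Q (pt 0 1 0) 0) (Q (pt 0 0 1) 0) x)) := by
  have hz := z1_ne hQ
  set w := z2 Q / z1 Q with hw
  have hw2 : z1 Q * w = z2 Q := by rw [hw]; field_simp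
  have r1 : (z1 Q).re * w.re - (z1 Q).im * w.im = Q (pt 0 0 1) 1 := by
    have := congrArg Complex.re hw2
    rw [Complex.mul_re] at this
    rw [this]; simp [z2]
  have r2 : (z1 Q).re * w.im + (z1 Q).im * w.re = Q (pt 0 0 1) 2 := by
    have := congrArg Complex.im hw2
    rw [Complex.mul_im] at this
    rw [this]; simp [z2]
  have s1 : (z1 Q).re = Q (pt 0 1 0) 1 := by simp [z1]
  have s2 : (z1 Q).im = Q (pt 0 1 0) 2 := by simp [z1]
  rw [expand Q hQ x, rotE_apply, Up_apply, Sr_apply, ← hw]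
  rw [s1, s2] at r1 r2
  set a := Q (pt 0 1 0) with ha
  set b := Q (pt 0 0 1) with hb
  have q0 : (x 0 • e₀ + x 1 • a + x 2 • b : E3) 0 = x 0 + x 1 * a 0 + x 2 * b 0 := by
    simp [e₀]
  have q1 : (x 0 • e₀ + x 1 • a + x 2 • b : E3) 1 = x 1 * a 1 + x 2 * b 1 := by
    simp [e₀]
  have q2 : (x 0 • e₀ + x 1 • a + x 2 • b : E3) 2 = x 1 * a 2 + x 2 * b 2 := by
    simp [e₀]
  apply ext3
  · rw [q0, cm0]; simp only [pt_zero', pt_one', pt_two']; ring
  · rw [q1, cm1, s1, s2]; simp only [pt_zero', pt_one', pt_two']; rw [← r1]; ring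
  · rw [q2, cm2, s1, s2]; simp only [pt_zero', pt_one', pt_two']; rw [← r2]; ring

theorem im_quot_pos {Q : E3 ≃L[ℝ] E3} (hQ : Q e₀ = e₀) (h : 0 < dt Q) : 0 < (z2 Q / z1 Q).im := by
  have hz := z1_ne hQ
  have hn : 0 < Complex.normSq (z1 Q) := Complex.normSq_pos.mpr hz
  rw [Complex.div_im]
  have e : (z2 Q).im * (z1 Q).re / Complex.normSq (z1 Q) -
      (z2 Q).re * (z1 Q).im / Complex.normSq (z1 Q) = dt Q / Complex.normSq (z1 Q) := by
    rw [← sub_div]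
    congr 1
    simp [z1, z2, dt]; ring
  rw [e]; positivity

/-- the logarithm of the standard rotation -/
def rh (k : ℤ) (t : ℝ) : ℂ := ((2 * Real.pi * (k * (t - 1 / 2)) - Real.pi / 2 : ℝ) : ℂ) * I

theorem rh_smooth (k : ℤ) : ContDiff ℝ ∞ (rh k) := by
  unfold rh
  exact (Complex.ofRealCLM.contDiff.comp ((contDiff_const.mul (contDiff_const.mul
    (contDiff_id.sub contDiff_const))).sub contDiff_const)).mul contDiff_const

theorem rh_succ (k : ℤ) (t : ℝ) : rh k (t + 1) = rh k t + 2 * Real.pi * k * I := by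
  unfold rh; push_cast; ring

theorem exp_rh_per (k : ℤ) (t : ℝ) : Complex.exp (rh k (t + 1)) = Complex.exp (rh k t) := by
  rw [rh_succ, show (2 * Real.pi * k * I : ℂ) = k * (2 * Real.pi * I) by ring, Complex.exp_add,
    Complex.exp_int_mul_two_pi_mul_I, mul_one]

/-- the standard rotation -/
def Wt (k : ℤ) (t : ℝ) : E3 ≃L[ℝ] E3 := rotE (Complex.exp (rh k t)) (Complex.exp_ne_zero _)

theorem Up_one (hd : (1 : ℝ) ≠ 0) (x : E3) : Up 0 1 hd x = x := by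
  rw [Up_apply]; apply ext3 <;> simp

theorem Sr_zero (x : E3) : Sr 0 0 x = x := by
  rw [Sr_apply]; apply ext3 <;> simp

theorem cmul_one (x : E3) : cmul 1 x = x := by
  apply ext3
  · rw [cm0]
  · rw [cm1]; simp
  · rw [cm2]; simp

theorem cmul_e (c : ℂ) : cmul c e₀ = e₀ := by
  apply ext3
  · rw [cm0]
  · rw [cm1]; simp [e₀]
  · rw [cm2]; simp [e₀]

theorem Up_e (c d : ℝ) (hd : d ≠ 0) : Up c d hd e₀ = e₀ := by
  rw [Up_apply]; apply ext3 <;> simp [e₀]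

theorem Sr_e (p q : ℝ) : Sr p q e₀ = e₀ := by
  rw [Sr_apply]; apply ext3 <;> simp [e₀]

theorem loop_norm {Q : ℝ → E3 ≃L[ℝ] E3} (hs : ContDiff ℝ ∞ fun q : ℝ × E3 => Q q.1 q.2)
    (hper : ∀ t z, Q (t + 1) z = Q t z) (he : ∀ t, Q t e₀ = e₀) (hdt : ∀ t, 0 < dt (Q t)) :
    ∃ k : ℤ, ∃ N : ℝ → ℝ → E3 ≃L[ℝ] E3,
      (ContDiff ℝ ∞ fun q : ℝ × ℝ × E3 => N q.1 q.2.1 q.2.2) ∧
      (∀ t τ z, N (t + 1) τ z = N t τ z) ∧ (∀ t z, N t 0 z = z) ∧ (∀ t τ, N t τ e₀ = e₀) ∧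
      ∀ t z, N t 1 z = Q t (Wt k t z) := by
  have hcol : ∀ (v : E3) (i : Fin 3), ContDiff ℝ ∞ fun t => Q t v i := by
    intro v i
    have h1 : ContDiff ℝ ∞ fun t => Q t v := hs.comp (contDiff_id.prodMk contDiff_const)
    exact (cd_co i).comp h1
  have hz1 : ContDiff ℝ ∞ fun t => z1 (Q t) :=
    (Complex.ofRealCLM.contDiff.comp (hcol _ 1)).add
      ((Complex.ofRealCLM.contDiff.comp (hcol _ 2)).mul contDiff_const)
  have hz2 : ContDiff ℝ ∞ fun t => z2 (Q t) :=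
    (Complex.ofRealCLM.contDiff.comp (hcol _ 1)).add
      ((Complex.ofRealCLM.contDiff.comp (hcol _ 2)).mul contDiff_const)
  have hne : ∀ t, z1 (Q t) ≠ 0 := fun t => z1_ne (he t)
  have hw : ContDiff ℝ ∞ fun t => z2 (Q t) / z1 (Q t) := by
    simp only [div_eq_mul_inv]
    exact hz2.mul (hz1.inv hne)
  have hQp : ∀ t, Q (t + 1) = Q t := fun t => by ext1; funext z; exact hper t z
  obtain ⟨l, hl, hle, m, hlp⟩ := exists_log_per hz1 hne (fun t => by rw [hQp])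
  set k : ℤ := -m with hk
  set c : ℝ → ℝ := fun t => (z2 (Q t) / z1 (Q t)).re with hc
  set d : ℝ → ℝ := fun t => (z2 (Q t) / z1 (Q t)).im with hd
  have hd0 : ∀ t, 0 < d t := fun t => im_quot_pos (he t) (hdt t)
  have hcs : ContDiff ℝ ∞ c := Complex.reCLM.contDiff.comp hw
  have hds : ContDiff ℝ ∞ d := Complex.imCLM.contDiff.comp hw
  set p : ℝ → ℝ := fun t => Q t (pt 0 1 0) 0 with hp
  set q : ℝ → ℝ := fun t => Q t (pt 0 0 1) 0 with hq
  set r : ℝ → ℂ := fun t => Complex.exp (rh k t) with hr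
  have hr0 : ∀ t, r t ≠ 0 := fun t => Complex.exp_ne_zero _
  have hri : ∀ t, (r t)⁻¹ ≠ 0 := fun t => inv_ne_zero (hr0 t)
  have hrs : ContDiff ℝ ∞ r := (rh_smooth k).cexp
  have hlogd : ContDiff ℝ ∞ fun t => Real.log (d t) := hds.log fun t => (hd0 t).ne'
  let A1 : ℝ × ℝ → E3 ≃L[ℝ] E3 := fun v => rotE (r v.1) (hr0 v.1)
  let A2 : ℝ × ℝ → E3 ≃L[ℝ] E3 := fun v => Sr (v.2 * p v.1) (v.2 * q v.1)
  let A3 : ℝ × ℝ → E3 ≃L[ℝ] E3 := fun v =>
    Up (v.2 * c v.1) (Real.exp (v.2 * Real.log (d v.1))) (Real.exp_ne_zero _)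
  let A4 : ℝ × ℝ → E3 ≃L[ℝ] E3 := fun v => rotE ((r v.1)⁻¹) (hri v.1)
  let A5 : ℝ × ℝ → E3 ≃L[ℝ] E3 := fun v =>
    rotE (Complex.exp ((v.2 : ℂ) * (l v.1 + rh k v.1))) (Complex.exp_ne_zero _)
  have s1 : ContDiff ℝ ∞ fun q : (ℝ × ℝ) × E3 => A1 q.1 q.2 :=
    fam_rotE (fun v : ℝ × ℝ => hr0 v.1) (hrs.comp contDiff_fst)
  have s2 : ContDiff ℝ ∞ fun q : (ℝ × ℝ) × E3 => A2 q.1 q.2 :=
    fam_Sr (contDiff_snd.mul ((hcol _ 0).comp contDiff_fst))
      (contDiff_snd.mul ((hcol _ 0).comp contDiff_fst))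
  have s3 : ContDiff ℝ ∞ fun q : (ℝ × ℝ) × E3 => A3 q.1 q.2 :=
    fam_Up (fun v : ℝ × ℝ => Real.exp_ne_zero _) (contDiff_snd.mul (hcs.comp contDiff_fst))
      (contDiff_snd.mul (hlogd.comp contDiff_fst)).exp
  have s4 : ContDiff ℝ ∞ fun q : (ℝ × ℝ) × E3 => A4 q.1 q.2 :=
    fam_rotE (fun v : ℝ × ℝ => hri v.1) ((hrs.inv hr0).comp contDiff_fst)
  have s5 : ContDiff ℝ ∞ fun q : (ℝ × ℝ) × E3 => A5 q.1 q.2 :=
    fam_rotE (fun v : ℝ × ℝ => Complex.exp_ne_zero _)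
      ((Complex.ofRealCLM.contDiff.comp contDiff_snd).mul
        ((hl.comp contDiff_fst).add ((rh_smooth k).comp contDiff_fst))).cexp
  refine ⟨k, fun t τ => ((((A1 (t, τ)).trans (A2 (t, τ))).trans (A3 (t, τ))).trans
    (A4 (t, τ))).trans (A5 (t, τ)), ?_, ?_, ?_, ?_, ?_⟩
  · refine (fam2_iff (fun t τ => ((((A1 (t, τ)).trans (A2 (t, τ))).trans (A3 (t, τ))).trans
      (A4 (t, τ))).trans (A5 (t, τ)))).2 ?_
    have t2 := fam_comp (P := A2) (Q := A1) s2 s1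
    have t3 := fam_comp (P := A3) (Q := fun v => (A1 v).trans (A2 v)) s3 t2
    have t4 := fam_comp (P := A4) (Q := fun v => ((A1 v).trans (A2 v)).trans (A3 v)) s4 t3
    exact fam_comp (P := A5) (Q := fun v => (((A1 v).trans (A2 v)).trans (A3 v)).trans (A4 v)) s5 t4
  · intro t τ z
    have e1 : r (t + 1) = r t := exp_rh_per k t
    have e2 : p (t + 1) = p t := by simp only [hp, hQp]
    have e3 : q (t + 1) = q t := by simp only [hq, hQp]
    have e4 : c (t + 1) = c t := by simp only [hc, hQp]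
    have e5 : d (t + 1) = d t := by simp only [hd, hQp]
    have e6 : l (t + 1) + rh k (t + 1) = l t + rh k t := by
      rw [hlp, rh_succ, hk]; push_cast; ring
    simp only [ContinuousLinearEquiv.trans_apply, A1, A2, A3, A4, A5, rotE_apply, Up_apply,
      Sr_apply, e1, e2, e3, e4, e5, e6]
  · intro t z
    have h0 : cmul ((r t)⁻¹) (cmul (r t) z) = z := by
      rw [← cmul_mul, inv_mul_cancel₀ (hr0 t), cmul_one]
    simp only [ContinuousLinearEquiv.trans_apply, A1, A2, A3, A4, A5]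
    simp only [zero_mul, Real.exp_zero, Complex.ofReal_zero, Complex.exp_zero, Sr_zero, Up_one,
      rotE_apply, cmul_one, h0]
  · intro t τ
    simp only [ContinuousLinearEquiv.trans_apply, A1, A2, A3, A4, A5, rotE_apply, cmul_e, Sr_e, Up_e]
  · intro t z
    rw [decomp (he t) (hd0 t).ne' (Wt k t z)]
    have h1 : Complex.exp (((1 : ℝ) : ℂ) * (l t + rh k t)) = z1 (Q t) * r t := by
      rw [Complex.ofReal_one, one_mul, Complex.exp_add, hle]
    simp only [ContinuousLinearEquiv.trans_apply, A1, A2, A3, A4, A5, rotE_apply, Wt]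
    rw [h1, cmul_mul, ← cmul_mul (r t), mul_inv_cancel₀ (hr0 t), cmul_one]
    have h2 : Real.exp (1 * Real.log (d t)) = d t := by rw [one_mul, Real.exp_log (hd0 t)]
    simp only [Up_apply, Sr_apply, one_mul, Real.exp_log (hd0 t)]
    rfl

end

end Pool.Agent.TSB
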