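import Pool.Agent.TSB.LoopN

/-!
# TSB/Per: periodic extension of families
-/

open scoped ContDiff Topology
open Set Filter

namespace Pool.Agent.TSB
open Pool.Agent.CSG Pool.Agent.UNQ

theorem per_ext {Q' : ℝ → E3 ≃L[ℝ] E3} (hs : ContDiff ℝ ∞ fun q : ℝ × E3 => Q' q.1 q.2)
    (h : ∀ t z, -(1 / 4) < t → t < 1 / 4 → Q' (t + 1) z = Q' t z) :
    ∃ Q : ℝ → E3 ≃L[ℝ] E3, (ContDiff ℝ ∞ fun q : ℝ × E3 => Q q.1 q.2) ∧
      (∀ t z, Q (t + 1) z = Q t z) ∧ ∀ t z, -(1 / 4) < t → t < 5 / 4 → Q t z = Q' t z := by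
  have hval : ∀ t z, -(1 / 4) < t → t < 5 / 4 → Q' (Int.fract t) z = Q' t z := by
    intro t z h0 h1
    rcases lt_or_ge t 0 with ht | ht
    · have h2 : Int.fract t = t + 1 := by
        rw [Int.fract_eq_iff]
        exact ⟨by linarith, by linarith, -1, by push_cast; ring⟩
      rw [h2]; exact h t z h0 (by linarith)
    · rcases lt_or_ge t 1 with ht1 | ht1
      · rw [Int.fract_eq_self.mpr ⟨ht, ht1⟩]
      · have h2 : Int.fract t = t - 1 := by
          rw [Int.fract_eq_iff]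
          exact ⟨by linarith, by linarith, 1, by push_cast; ring⟩
        rw [h2, ← h (t - 1) z (by linarith) (by linarith), sub_add_cancel]
  refine ⟨fun t => Q' (Int.fract t), ?_, ?_, hval⟩
  · rw [contDiff_iff_contDiffAt]
    rintro ⟨t₀, z₀⟩
    set m : ℤ := round t₀ with hm
    have hr := abs_sub_round t₀
    have hsm : ContDiff ℝ ∞ fun q : ℝ × E3 => Q' (q.1 - m) q.2 :=
      hs.comp ((contDiff_fst.sub contDiff_const).prodMk contDiff_snd)
    rcases lt_or_ge |t₀ - m| (1 / 4) with hc | hc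
    · refine hsm.contDiffAt.congr_of_eventuallyEq ?_
      have ho : ∀ᶠ q : ℝ × E3 in 𝓝 (t₀, z₀), |q.1 - m| < 1 / 4 :=
        (isOpen_lt (by fun_prop) continuous_const).mem_nhds hc
      filter_upwards [ho] with q hq
      obtain ⟨a, b⟩ := abs_lt.mp hq
      show Q' (Int.fract q.1) q.2 = Q' (q.1 - m) q.2
      rw [← hval (q.1 - m) q.2 a (by linarith), Int.fract_sub_intCast]
    · -- `t₀` is not an integer
      have hsm2 : ContDiff ℝ ∞ fun q : ℝ × E3 => Q' (q.1 - ⌊t₀⌋) q.2 :=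
        hs.comp ((contDiff_fst.sub contDiff_const).prodMk contDiff_snd)
      refine hsm2.contDiffAt.congr_of_eventuallyEq ?_
      have hfl : (⌊t₀⌋ : ℝ) < t₀ := by
        rcases lt_or_eq_of_le (Int.floor_le t₀) with h1 | h1
        · exact h1
        · exfalso
          have h2 : round t₀ = ⌊t₀⌋ := by
            conv_lhs => rw [← h1]
            exact round_intCast _
          rw [hm, h2, h1, sub_self, abs_zero] at hc
          linarith
      have hfl2 := Int.lt_floor_add_one t₀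
      have ho1 : ∀ᶠ q : ℝ × E3 in 𝓝 (t₀, z₀), (⌊t₀⌋ : ℝ) < q.1 :=
        (isOpen_lt continuous_const (by fun_prop)).mem_nhds hfl
      have ho2 : ∀ᶠ q : ℝ × E3 in 𝓝 (t₀, z₀), q.1 < ⌊t₀⌋ + 1 :=
        (isOpen_lt (by fun_prop) continuous_const).mem_nhds hfl2
      filter_upwards [ho1, ho2] with q hq1 hq2
      have hq : (⌊t₀⌋ : ℝ) < q.1 ∧ q.1 < ⌊t₀⌋ + 1 := ⟨hq1, hq2⟩
      show Q' (Int.fract q.1) q.2 = Q' (q.1 - ⌊t₀⌋) q.2
      have : ⌊q.1⌋ = ⌊t₀⌋ := by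
        rw [Int.floor_eq_iff]; exact ⟨hq.1.le, hq.2⟩
      rw [← Int.self_sub_floor, this]
  · intro t z
    show Q' (Int.fract (t + 1)) z = Q' (Int.fract t) z
    rw [Int.fract_add_one]

theorem dt_sign {Q : ℝ → E3 ≃L[ℝ] E3} (hs : ContDiff ℝ ∞ fun q : ℝ × E3 => Q q.1 q.2)
    (he : ∀ t, Q t e₀ = e₀) : (∀ t, 0 < dt (Q t)) ∨ ∀ t, dt (Q t) < 0 := by
  have hcol : ∀ (v : E3) (i : Fin 3), ContDiff ℝ ∞ fun t => Q t v i := by
    intro v i
    have h1 : ContDiff ℝ ∞ fun t => Q t v := hs.comp (contDiff_id.prodMk contDiff_const)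
    exact (cd_co i).comp h1
  have hc : Continuous fun t => dt (Q t) :=
    (((hcol _ 1).mul (hcol _ 2)).sub ((hcol _ 2).mul (hcol _ 1))).continuous
  by_contra hcon
  push Not at hcon
  obtain ⟨⟨a, ha⟩, b, hb⟩ := hcon
  obtain ⟨t, ht⟩ := mem_range_of_exists_le_of_exists_ge hc ⟨a, ha⟩ ⟨b, hb⟩
  exact dt_ne (he t) ht

theorem loop_bound {Q : ℝ → E3 ≃L[ℝ] E3} (hs : ContDiff ℝ ∞ fun q : ℝ × E3 => Q q.1 q.2)
    (hper : ∀ t z, Q (t + 1) z = Q t z) : ∃ K : ℝ, 0 ≤ K ∧ ∀ t z, ‖Q t z‖ ≤ K * ‖z‖ := by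
  have h1 : Continuous fun t : ℝ => (Q t : E3 →L[ℝ] E3) := ((fam_iff Q).1 hs).continuous
  obtain ⟨K, hK⟩ := (isCompact_Icc (a := (0 : ℝ)) (b := 1)).exists_bound_of_continuousOn
    h1.continuousOn
  have hQp : ∀ t, Q (t + 1) = Q t := fun t => by ext1; funext z; exact hper t z
  refine ⟨K, (norm_nonneg _).trans (hK 0 ⟨le_refl _, zero_le_one⟩), fun t z => ?_⟩
  have h2 : Q t = Q (Int.fract t) := by
    have hp : Function.Periodic Q 1 := hQp
    have h3 := hp.sub_int_mul_eq (x := t) ⌊t⌋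
    rw [mul_one] at h3
    exact h3.symm
  rw [h2]
  exact ((Q (Int.fract t) : E3 →L[ℝ] E3).le_opNorm z).trans
    (mul_le_mul_of_nonneg_right (hK _ ⟨Int.fract_nonneg t, (Int.fract_lt_one t).le⟩) (norm_nonneg z))

end Pool.Agent.TSB
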