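import Pool.Agent.TSB.LoopN
import Pool.Agent.CSG.LDb
import Pool.Agent.TS.PDef

/-!
# TSB/Th: a family of compactly supported diffeomorphisms of `R³`, transported to the tube around the circles
`x 0, x 2 ∈ Z + 1/2`, `t = 1/2`, direction `u = x 1`
-/

open scoped ContDiff Topology Manifold
open Set Filter
open Complex (I)

namespace Pool.Agent.TSB
open Pool.Agent.CSG Pool.Agent.UNQ Pool.Agent.TS

noncomputable section

/-- normal coordinates of the tube -/
def vv (q : E3 × ℝ) : E3 := pt (Int.fract (q.1 0) - 1 / 2) (q.2 - 1 / 2) (Int.fract (q.1 2) - 1 / 2)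

/-- compactly supported periodic family -/
structure TFam (R : ℝ) (χ : ℝ → Equiv.Perm E3) : Prop where
  smooth : ContDiff ℝ ∞ fun q : E3 × ℝ => χ q.2 q.1
  smooth' : ContDiff ℝ ∞ fun q : E3 × ℝ => (χ q.2).symm q.1
  per : ∀ u v, χ (u + 1) v = χ u v
  supp : ∀ u v, R ≤ ‖v‖ → χ u v = v
  zero : ∀ u, χ u 0 = 0

theorem TFam.symm {R : ℝ} {χ : ℝ → Equiv.Perm E3} (h : TFam R χ) : TFam R fun u => (χ u).symm where
  smooth := h.smooth'
  smooth' := by simpa using h.smooth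
  per u v := by
    have : χ (u + 1) = χ u := Equiv.ext fun v => h.per u v
    show (χ (u + 1)).symm v = (χ u).symm v
    rw [this]
  supp u v hv := by
    show (χ u).symm v = v
    rw [Equiv.symm_apply_eq]; exact (h.supp u v hv).symm
  zero u := by
    show (χ u).symm 0 = 0
    rw [Equiv.symm_apply_eq]; exact (h.zero u).symm

theorem TFam.per_int {R : ℝ} {χ : ℝ → Equiv.Perm E3} (h : TFam R χ) (u : ℝ) (n : ℤ) (v : E3) :
    χ (u + n) v = χ u v := by
  have hp : Function.Periodic (fun u => χ u v) 1 := fun u => h.per u v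
  have := hp.int_mul n u
  simpa using this

theorem TFam.small {R : ℝ} {χ : ℝ → Equiv.Perm E3} (h : TFam R χ) {u : ℝ} {v : E3} (hv : ‖v‖ < R) :
    ‖χ u v‖ < R := by
  by_contra hcon
  push Not at hcon
  have h1 := (χ u).injective (h.supp u _ hcon)
  rw [h1] at hcon
  linarith

/-- displacement -/
def dd (χ : ℝ → Equiv.Perm E3) (q : E3 × ℝ) : E3 := χ (q.1 1) (vv q) - vv q

/-- the transported map -/
def Th0 (χ : ℝ → Equiv.Perm E3) (q : E3 × ℝ) : E3 × ℝ :=
  (q.1 + pt (dd χ q 0) 0 (dd χ q 2), q.2 + dd χ q 1)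

variable {R : ℝ} {χ : ℝ → Equiv.Perm E3}

theorem co_lt {v : E3} {r : ℝ} (h : ‖v‖ < r) (i : Fin 3) : |v i| < r := by
  have h1 : ‖v i‖ ≤ ‖v‖ := PiLp.norm_apply_le v i
  rw [Real.norm_eq_abs] at h1
  linarith

theorem Th0_u (χ : ℝ → Equiv.Perm E3) (q : E3 × ℝ) : (Th0 χ q).1 1 = q.1 1 := by simp [Th0]

theorem dd_far (h : TFam R χ) {q : E3 × ℝ} (hq : R ≤ ‖vv q‖) : dd χ q = 0 := by
  rw [dd, h.supp _ _ hq, sub_self]

theorem Th0_far (h : TFam R χ) {q : E3 × ℝ} (hq : R ≤ ‖vv q‖) : Th0 χ q = q := by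
  rw [Th0, dd_far h hq]
  apply Prod.ext
  · apply ext3 <;> simp
  · simp

theorem vv_Th0 (hR : R ≤ 1 / 4) (h : TFam R χ) (q : E3 × ℝ) :
    vv (Th0 χ q) = χ (q.1 1) (vv q) := by
  rcases lt_or_ge ‖vv q‖ R with hq | hq
  · have h1 := h.small (u := q.1 1) hq
    have b0 := abs_lt.mp (co_lt h1 0)
    have b2 := abs_lt.mp (co_lt h1 2)
    have f0 : Int.fract (q.1 0 + dd χ q 0) = Int.fract (q.1 0) + dd χ q 0 := by
      rw [Int.fract_eq_iff]
      have e1 : Int.fract (q.1 0) + dd χ q 0 = 1 / 2 + χ (q.1 1) (vv q) 0 := by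
        simp [dd, vv]; ring
      rw [e1]
      refine ⟨by linarith, by linarith, ⌊q.1 0⌋, ?_⟩
      rw [← e1, ← Int.self_sub_floor]; ring
    have f2 : Int.fract (q.1 2 + dd χ q 2) = Int.fract (q.1 2) + dd χ q 2 := by
      rw [Int.fract_eq_iff]
      have e1 : Int.fract (q.1 2) + dd χ q 2 = 1 / 2 + χ (q.1 1) (vv q) 2 := by
        simp [dd, vv]; ring
      rw [e1]
      refine ⟨by linarith, by linarith, ⌊q.1 2⌋, ?_⟩
      rw [← e1, ← Int.self_sub_floor]; ring
    have g0 : (Th0 χ q).1 0 = q.1 0 + dd χ q 0 := by simp [Th0]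
    have g2 : (Th0 χ q).1 2 = q.1 2 + dd χ q 2 := by simp [Th0]
    have g1 : (Th0 χ q).2 = q.2 + dd χ q 1 := rfl
    apply ext3
    · simp only [vv, pt_zero']
      rw [g0, f0]; simp [dd, vv]; ring
    · simp only [vv, pt_one']
      rw [g1]; simp [dd, vv]; ring
    · simp only [vv, pt_two']
      rw [g2, f2]; simp [dd, vv]; ring
  · rw [Th0_far h hq, h.supp _ _ hq]

theorem Th0_inv (hR : R ≤ 1 / 4) (h : TFam R χ) (q : E3 × ℝ) :
    Th0 (fun u => (χ u).symm) (Th0 χ q) = q := by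
  have h1 : dd (fun u => (χ u).symm) (Th0 χ q) = -dd χ q := by
    simp only [dd]
    rw [vv_Th0 hR h, Th0_u, Equiv.symm_apply_apply]; abel
  rw [Th0, h1]
  apply Prod.ext
  · apply ext3
    · simp [Th0]
    · simp [Th0]
    · simp [Th0]
  · simp [Th0]

/-- the transported permutation -/
def ThE (hR : R ≤ 1 / 4) (h : TFam R χ) : Equiv.Perm (E3 × ℝ) where
  toFun := Th0 χ
  invFun := Th0 fun u => (χ u).symm
  left_inv := Th0_inv hR h
  right_inv q := by
    have := Th0_inv hR h.symm q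
    simpa using this

theorem contDiff_dd (hR : R ≤ 1 / 4) (h : TFam R χ) : ContDiff ℝ ∞ (dd χ) := by
  rw [contDiff_iff_contDiffAt]
  intro q
  have hco : ∀ i, ContDiff ℝ ∞ fun q : E3 × ℝ => q.1 i := fun i => (cd_co i).comp contDiff_fst
  by_cases hi : Int.fract (q.1 0) = 0 ∨ Int.fract (q.1 2) = 0
  · -- far from the tube
    refine (contDiffAt_const (c := (0 : E3))).congr_of_eventuallyEq ?_
    have key : ∀ {a : ℝ}, Int.fract a = 0 → ∀ᶠ b in 𝓝 a, 1 / 4 ≤ |Int.fract b - 1 / 2| := by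
      intro a ha
      have ha2 : a = ⌊a⌋ := by
        have := Int.fract_add_floor a
        rw [ha] at this; linarith
      have ho : Ioo (a - 1 / 4) (a + 1 / 4) ∈ 𝓝 a := Ioo_mem_nhds (by linarith) (by linarith)
      filter_upwards [ho] with b hb
      rcases lt_or_ge b a with hba | hba
      · have hf : Int.fract b = b - a + 1 := by
          rw [Int.fract_eq_iff]
          refine ⟨by linarith [hb.1], by linarith, ⌊a⌋ - 1, ?_⟩
          push_cast; linarith
        rw [hf, abs_of_nonneg (by linarith [hb.1])]; linarith [hb.1]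
      · have hf : Int.fract b = b - a := by
          rw [Int.fract_eq_iff]
          refine ⟨by linarith [hb.1], by linarith [hb.2], ⌊a⌋, ?_⟩
          linarith
        rw [hf, abs_of_nonpos (by linarith [hb.2])]; linarith [hb.2]
    rcases hi with hi | hi
    · have h1 : ∀ᶠ p : E3 × ℝ in 𝓝 q, 1 / 4 ≤ |Int.fract (p.1 0) - 1 / 2| :=
        (hco 0).continuous.continuousAt.eventually (key hi)
      filter_upwards [h1] with p hp
      apply dd_far h
      refine hR.trans (hp.trans ?_)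
      have := PiLp.norm_apply_le (vv p) 0
      simpa [vv] using this
    · have h1 : ∀ᶠ p : E3 × ℝ in 𝓝 q, 1 / 4 ≤ |Int.fract (p.1 2) - 1 / 2| :=
        (hco 2).continuous.continuousAt.eventually (key hi)
      filter_upwards [h1] with p hp
      apply dd_far h
      refine hR.trans (hp.trans ?_)
      have := PiLp.norm_apply_le (vv p) 2
      simpa [vv] using this
  · push Not at hi
    have key : ∀ {a : ℝ}, Int.fract a ≠ 0 → ∀ᶠ b : ℝ in 𝓝 a, Int.fract b = b - (⌊a⌋ : ℝ) := by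
      intro a ha
      have h0 : 0 < Int.fract a := lt_of_le_of_ne (Int.fract_nonneg a) (Ne.symm ha)
      have h1 := Int.fract_lt_one a
      have h2 := Int.self_sub_floor a
      have ho : Ioo (⌊a⌋ : ℝ) (⌊a⌋ + 1) ∈ 𝓝 a := Ioo_mem_nhds (by linarith) (by linarith)
      filter_upwards [ho] with b hb
      rw [Int.fract_eq_iff]
      exact ⟨by linarith [hb.1], by linarith [hb.2], ⌊a⌋, by ring⟩
    have hvs : ContDiff ℝ ∞ fun p : E3 × ℝ =>
        pt (p.1 0 - ⌊q.1 0⌋ - 1 / 2) (p.2 - 1 / 2) (p.1 2 - ⌊q.1 2⌋ - 1 / 2) :=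
      cd_pt (((hco 0).sub contDiff_const).sub contDiff_const) (contDiff_snd.sub contDiff_const)
        (((hco 2).sub contDiff_const).sub contDiff_const)
    have hs : ContDiff ℝ ∞ fun p : E3 × ℝ =>
        χ (p.1 1) (pt (p.1 0 - ⌊q.1 0⌋ - 1 / 2) (p.2 - 1 / 2) (p.1 2 - ⌊q.1 2⌋ - 1 / 2)) -
          pt (p.1 0 - ⌊q.1 0⌋ - 1 / 2) (p.2 - 1 / 2) (p.1 2 - ⌊q.1 2⌋ - 1 / 2) :=
      (h.smooth.comp (hvs.prodMk (hco 1))).sub hvs
    refine hs.contDiffAt.congr_of_eventuallyEq ?_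
    have h1 := (hco 0).continuous.continuousAt.eventually (key hi.1)
    have h2 := (hco 2).continuous.continuousAt.eventually (key hi.2)
    filter_upwards [h1, h2] with p hp1 hp2
    simp only [dd, vv]
    rw [hp1, hp2]

theorem contDiff_Th0 (hR : R ≤ 1 / 4) (h : TFam R χ) : ContDiff ℝ ∞ (Th0 χ) := by
  have hd := contDiff_dd hR h
  have hdi : ∀ i, ContDiff ℝ ∞ fun q => dd χ q i := fun i => (cd_co i).comp hd
  exact (contDiff_fst.add (cd_pt (hdi 0) contDiff_const (hdi 2))).prodMk (contDiff_snd.add (hdi 1))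

theorem Th_ld (hR : R ≤ 1 / 4) (h : TFam R χ) (q : E3 × ℝ) :
    IsLocalDiffeomorphAt 𝓘(ℝ, E3 × ℝ) 𝓘(ℝ, E3 × ℝ) ∞ (Th0 χ) q :=
  ld_of_perm (f := ThE hR h) (contDiff_Th0 hR h) (contDiff_Th0 hR h.symm) q

theorem Th0_inj (hR : R ≤ 1 / 4) (h : TFam R χ) {p q : E3 × ℝ} (hpq : Th0 χ p = Th0 χ q) : p = q :=
  (ThE hR h).injective hpq

theorem Th0_surj (hR : R ≤ 1 / 4) (h : TFam R χ) (q : E3 × ℝ) : ∃ p, Th0 χ p = q :=
  (ThE hR h).surjective q

theorem vv_vec (x : E3) (t : ℝ) (m : Fin 3 → ℤ) : vv (x + vec m, t) = vv (x, t) := by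
  have e0 : (x + vec m) 0 = x 0 + (m 0 : ℝ) := rfl
  have e2 : (x + vec m) 2 = x 2 + (m 2 : ℝ) := rfl
  simp only [vv]
  rw [e0, e2, Int.fract_add_intCast, Int.fract_add_intCast]

theorem Th0_vec (h : TFam R χ) (x : E3) (t : ℝ) (m : Fin 3 → ℤ) :
    Th0 χ (x + vec m, t) = ((Th0 χ (x, t)).1 + vec m, (Th0 χ (x, t)).2) := by
  have e1 : (x + vec m) 1 = x 1 + (m 1 : ℝ) := rfl
  have hd : dd χ (x + vec m, t) = dd χ (x, t) := by
    simp only [dd]
    rw [vv_vec, e1, h.per_int]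
  simp only [Th0]
  rw [hd]
  apply Prod.ext
  · simp only; abel
  · rfl

theorem onC_iff_vv (x : E3) (t : ℝ) : OnC x t ↔ vv (x, t) = 0 := by
  have key : ∀ a : ℝ, (∃ n : ℤ, a = n + 1 / 2) ↔ Int.fract a - 1 / 2 = 0 := by
    intro a
    constructor
    · rintro ⟨n, rfl⟩
      rw [Int.fract_intCast_add]
      norm_num [Int.fract_eq_self.mpr]
    · intro h
      refine ⟨⌊a⌋, ?_⟩
      have := Int.floor_add_fract a
      linarith
  constructor
  · rintro ⟨h1, h2, h3⟩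
    apply ext3
    · simpa [vv] using (key _).mp h2
    · simp [vv, h1]
    · simpa [vv] using (key _).mp h3
  · intro h
    have h0 := congrArg (fun z : E3 => z 0) h
    have h1 := congrArg (fun z : E3 => z 1) h
    have h2 := congrArg (fun z : E3 => z 2) h
    simp only [vv, pt_zero', pt_one', pt_two', PiLp.zero_apply] at h0 h1 h2
    exact ⟨by linarith, (key _).mpr h0, (key _).mpr h2⟩

theorem onC_Th (hR : R ≤ 1 / 4) (h : TFam R χ) (x : E3) (t : ℝ) :
    OnC (Th0 χ (x, t)).1 (Th0 χ (x, t)).2 ↔ OnC x t := by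
  rw [onC_iff_vv, onC_iff_vv]
  have h1 : vv ((Th0 χ (x, t)).1, (Th0 χ (x, t)).2) = χ (x 1) (vv (x, t)) := vv_Th0 hR h (x, t)
  rw [h1]
  constructor
  · intro h2
    apply (χ (x 1)).injective
    rw [h2, h.zero]
  · intro h2
    rw [h2, h.zero]

theorem offAx_of_vv {x : E3} {t : ℝ} (h : ‖vv (x, t)‖ < 1 / 4) : OffAx x := by
  rintro ⟨_, b, hb⟩
  have h1 := co_lt h 2
  simp only [vv, pt_two'] at h1
  rw [hb, Int.fract_intCast] at h1
  norm_num at h1

theorem offAx_Th (hR : R ≤ 1 / 4) (h : TFam R χ) (x : E3) (t : ℝ) :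
    OffAx (Th0 χ (x, t)).1 ↔ OffAx x := by
  rcases lt_or_ge ‖vv (x, t)‖ R with hq | hq
  · have h1 : ‖vv ((Th0 χ (x, t)).1, (Th0 χ (x, t)).2)‖ < R := by
      have h2 : vv ((Th0 χ (x, t)).1, (Th0 χ (x, t)).2) = χ (x 1) (vv (x, t)) := vv_Th0 hR h (x, t)
      rw [h2]; exact h.small hq
    exact ⟨fun _ => offAx_of_vv (hq.trans_le hR), fun _ => offAx_of_vv (h1.trans_le hR)⟩
  · rw [Th0_far h hq]

/-- the time coordinate changes only in `|t - 1/2| < R` -/
theorem time_Th (h : TFam R χ) (x : E3) (t : ℝ) :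
    (Th0 χ (x, t)).2 = t ∨ (|t - 1 / 2| < R ∧ |(Th0 χ (x, t)).2 - 1 / 2| < R) := by
  rcases lt_or_ge ‖vv (x, t)‖ R with hq | hq
  · right
    constructor
    · have := co_lt hq 1
      simpa [vv] using this
    · have := co_lt (h.small (u := x 1) hq) 1
      have e : (Th0 χ (x, t)).2 - 1 / 2 = χ (x 1) (vv (x, t)) 1 := by
        simp [Th0, dd, vv]; ring
      rw [e]; exact this
  · left; rw [Th0_far h hq]

theorem Th0_time_far (h : TFam R χ) (x : E3) {t : ℝ} (ht : R ≤ |t - 1 / 2|) : Th0 χ (x, t) = (x, t) := by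
  apply Th0_far h
  refine ht.trans ?_
  have := PiLp.norm_apply_le (vv (x, t)) 1
  simpa [vv] using this

end

end Pool.Agent.TSB
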