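import Pool.Agent.TSB.ELN
import Pool.Agent.TSB.BindM
import Pool.Agent.UNQ.Tube

/-!
# TSB/TubeM: normalisation of the tube; `PB κ k X → PD κ ε k e X`
-/

open scoped ContDiff Topology Manifold
open Set Filter
open Complex (I)

namespace Pool.Agent.TSB
open Pool.Agent.CSG Pool.Agent.UNQ Pool.Agent.TS

variable {κ : Equiv.Perm E3} {k : ℤ} {X : Type*} [TopologicalSpace X] [ChartedSpace E4 X]

theorem PB.isLoop_N (D : PB κ k X) : IsLoop D.N where
  smooth := D.N_smooth
  per u z := by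
    have h1 := D.f_deriv (u + 1)
    have h2 : (fun v => D.f (u + 1, v)) = fun v => D.f (u, v) := by
      funext v; exact D.f_per u v
    rw [h2] at h1
    have h3 := h1.unique (D.f_deriv u)
    exact congrArg (fun L : E3 →L[ℝ] E3 => L z) h3

theorem pd_of_class (D : PB κ k X) (e : ℤ) (hM : Hom one (cp (ELe e) D.N)) :
    ∃ ε₀ : ℝ, 0 < ε₀ ∧ ∀ ε : ℝ, 0 < ε → ε < ε₀ → Nonempty (PD κ ε k e X) := by
  have hR : 0 < D.δ := D.δ_pos
  have hE := isLoop_ELe e
  have hEp : ∀ u z, ELe e (u + 1) z = ELe e u z := hE.per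
  obtain ⟨r₀, c, hr₀, hc, hcr, χ', a1, a2, a3, a4, a5⟩ := tube (g := fun q : ℝ × E3 => ELe e q.1 (D.f q))
    (ρ := D.δ) hR (by
      intro q hq
      have h1 : ContDiffAt ℝ ∞ (fun q : ℝ × E3 => (q.1, D.f q)) q :=
        contDiffAt_fst.prodMk (D.f_smooth q.1 q.2 hq)
      have h2 : ContDiffAt ℝ ∞ (fun q : ℝ × E3 => ELe e q.1 q.2) (q.1, D.f q) :=
        hE.smooth.contDiffAt
      have h3 := ContDiffAt.comp q (g := fun q : ℝ × E3 => ELe e q.1 q.2)
        (f := fun q : ℝ × E3 => (q.1, D.f q)) h2 h1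
      exact h3.contDiffWithinAt) (by
      intro a x _
      show ELe e (a + 1) (D.f (a + 1, x)) = ELe e a (D.f (a, x))
      rw [hEp, D.f_per]) (by
      intro a
      show ELe e a (D.f (a, 0)) = 0
      rw [D.f_zero, map_zero]) (M := cp (ELe e) D.N) (by
      intro a
      have h1 := ((ELe e a : E3 ≃L[ℝ] E3) : E3 →L[ℝ] E3).hasFDerivAt.comp (0 : E3) (D.f_deriv a)
      exact h1) hM hR
  obtain ⟨rs, hrs, S, b1, b2, b3, b4, b5⟩ := exists_lin (hom_scl hc) hR
  have hχ'0 : ∀ u, χ' u 0 = 0 := by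
    intro u
    rw [a5 u 0 (by rw [norm_zero]; exact hr₀.le), smul_zero]
    show ELe e u (D.f (u, 0)) = 0
    rw [D.f_zero, map_zero]
  have hT' : TFam D.δ χ' := ⟨a1, a2, a3, a4, hχ'0⟩
  have hTi := hT'.symm
  obtain ⟨r₂, hr₂, hsm⟩ := small_image hTi.smooth hTi.per hTi.zero (lt_min hr₀ hrs)
  have hS0 : ∀ u, S u 0 = 0 := by
    intro u
    rw [b5 u 0 (by rw [norm_zero]; exact hrs.le), map_zero]
  have hT : TFam D.δ fun u => S u * (χ' u).symm :=
    { smooth := b1.comp (a2.prodMk contDiff_snd)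
      smooth' := by
        have : ContDiff ℝ ∞ fun q : E3 × ℝ => χ' q.2 ((S q.2).symm q.1) :=
          a1.comp (b2.prodMk contDiff_snd)
        exact this
      per := fun u v => by
        show S (u + 1) ((χ' (u + 1)).symm v) = S u ((χ' u).symm v)
        have h1 : (χ' (u + 1)).symm v = (χ' u).symm v := hTi.per u v
        rw [h1, b3]
      supp := fun u v hv => by
        show S u ((χ' u).symm v) = v
        have h1 : (χ' u).symm v = v := hTi.supp u v hv
        rw [h1, b4 u v hv]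
      zero := fun u => by
        show S u ((χ' u).symm 0) = 0
        have h1 : (χ' u).symm 0 = 0 := hTi.zero u
        rw [h1, hS0] }
  refine pd_of_tube D e hT le_rfl hr₂ ?_
  intro u y hy
  set x : E3 := (χ' u).symm (ELe e u y) with hx
  have hxn : ‖x‖ ≤ min r₀ rs := hsm u _ (by rw [norm_ELe]; exact hy.le)
  have h1 : S u x = c • x := by
    rw [b5 u x (hxn.trans (min_le_right _ _)), scl_apply]
  have h2 : χ' u x = ELe e u (D.f (u, c • x)) := a5 u x (hxn.trans (min_le_left _ _))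
  have h3 : χ' u x = ELe e u y := by rw [hx, Equiv.apply_symm_apply]
  show D.f (u, S u x) = y
  rw [h1]
  exact (ELe e u).injective (h2.symm.trans h3)

/-- the pair of data with tubes differing by one twist gives `PD` for every `e` -/
theorem pd_of_pair {C : Matrix (Fin 3) (Fin 3) ℤ} (K : KDat C) (D₀ D₁ : PDlin C X)
    (hN : ∀ u z, D₁.N u z = cmul (ex (1 / 2 - u)) (D₀.N u z)) (e : ℤ) :
    ∃ (k : ℤ) (ε₀ : ℝ), 0 < ε₀ ∧ ∀ ε : ℝ, 0 < ε → ε < ε₀ → Nonempty (PD K.κ₀ ε k e X) := by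
  obtain ⟨k₀, B₀, -, -, -, hB₀⟩ := bind_norm K D₀
  obtain ⟨k₁, B₁, -, -, -, hB₁⟩ := bind_norm K D₁
  have hL₀ := B₀.isLoop_N
  have e1 : B₁.N = cp rotL B₀.N := by
    apply loop_ext
    intro t z
    rw [hB₁, hN, ← hB₀]; rfl
  rcases sign_cases hL₀.smooth with hp | hp
  · rcases tube_class e hL₀ hp with h | h
    · exact ⟨k₀, pd_of_class B₀ e h⟩
    · exact ⟨k₁, pd_of_class B₁ e (by rw [e1]; exact h)⟩
  · have hL : IsLoop (flipc B₀).N := (flipc B₀).isLoop_N
    have hf : (flipc B₀).N = cp B₀.N fun _ => ContinuousLinearEquiv.neg ℝ := by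
      apply loop_ext
      intro t z
      show -(B₀.N t z) = B₀.N t (-z)
      rw [map_neg]
    have hp' : PosDet (flipc B₀).N := by rw [hf]; exact hp
    have e2 : (flipc B₁).N = cp rotL (flipc B₀).N := by
      apply loop_ext
      intro t z
      show -(B₁.N t z) = rotL t (-(B₀.N t z))
      rw [e1, map_neg]; rfl
    rcases tube_class e hL hp' with h | h
    · exact ⟨k₀, pd_of_class (flipc B₀) e h⟩
    · exact ⟨k₁, pd_of_class (flipc B₁) e (by rw [e2]; exact h)⟩

end Pool.Agent.TSB
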