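import Pool.Agent.TSB.Th
import Pool.Agent.TSB.Def

/-!
# TSB/TubeP: `PB κ k X` with a tube which is standard after a compactly supported change gives `PD κ ε k e X`
-/

open scoped ContDiff Topology Manifold
open Set Filter
open Complex (I)

namespace Pool.Agent.TSB
open Pool.Agent.CSG Pool.Agent.UNQ Pool.Agent.TS

noncomputable section

/-- cyclic permutation of the coordinates -/
def Cy : E3 ≃L[ℝ] E3 :=
  LinearEquiv.toContinuousLinearEquiv
    { toFun := fun x => pt (x 1) (x 2) (x 0)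
      invFun := fun x => pt (x 2) (x 0) (x 1)
      map_add' := fun x y => by ext i; fin_cases i <;> simp [pt]
      map_smul' := fun r x => by ext i; fin_cases i <;> simp [pt]
      left_inv := fun x => by ext i; fin_cases i <;> simp [pt]
      right_inv := fun x => by ext i; fin_cases i <;> simp [pt] }

theorem Cy_apply (x : E3) : Cy x = pt (x 1) (x 2) (x 0) := rfl

theorem ex_ne' (x : ℝ) : ex x ≠ 0 := Complex.exp_ne_zero _

/-- the standard tube with twist `e`: `Y ↦ pt (Re w) (Im w) (Y 0)`, `w = ex (e thc u) (Y 1 + i Y 2)` -/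
def ELe (e : ℤ) (u : ℝ) : E3 ≃L[ℝ] E3 := (rotE (ex (e * thc u)) (ex_ne' _)).trans Cy

theorem ELe_apply (e : ℤ) (u : ℝ) (Y : E3) :
    ELe e u Y = pt (ex (e * thc u) * (Y 1 + Y 2 * I)).re (ex (e * thc u) * (Y 1 + Y 2 * I)).im
      (Y 0) := by
  show Cy (cmul (ex (e * thc u)) Y) = _
  rw [Cy_apply, cmul]
  simp

theorem norm_sq_E3 (x : E3) : ‖x‖ ^ 2 = x 0 ^ 2 + x 1 ^ 2 + x 2 ^ 2 := by
  rw [EuclideanSpace.norm_sq_eq, Fin.sum_univ_three]
  simp

theorem norm_ELe (e : ℤ) (u : ℝ) (Y : E3) : ‖ELe e u Y‖ = ‖Y‖ := by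
  have h1 : ‖ELe e u Y‖ ^ 2 = ‖Y‖ ^ 2 := by
    rw [ELe_apply, norm_sq_E3, norm_sq_E3]
    simp only [pt_zero', pt_one', pt_two']
    have h2 : (ex (e * thc u) * (Y 1 + Y 2 * I)).re ^ 2 + (ex (e * thc u) * (Y 1 + Y 2 * I)).im ^ 2 =
        Y 1 ^ 2 + Y 2 ^ 2 := by
      have h3 := Complex.normSq_eq_norm_sq (ex (e * thc u) * (Y 1 + Y 2 * I))
      rw [norm_mul, ex, Complex.norm_exp_ofReal_mul_I, one_mul, ← Complex.normSq_eq_norm_sq,
        Complex.normSq_add_mul_I, Complex.normSq_apply] at h3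
      rw [ex]
      nlinarith [h3]
    rw [h2]; ring
  exact (pow_left_inj₀ (norm_nonneg _) (norm_nonneg _) (by norm_num)).mp h1

theorem dir_of_smul {Y : S2} {s : ℝ} (hs : 0 < s) : dir (s • (Y : E3)) = Y ∧ ‖s • (Y : E3)‖ = s := by
  have h1 : ‖(Y : E3)‖ = 1 := by simp
  have h2 : ‖s • (Y : E3)‖ = s := by rw [norm_smul, h1, mul_one, Real.norm_of_nonneg hs.le]
  refine ⟨?_, h2⟩
  have h3 : s • (Y : E3) ≠ 0 := by
    rw [← norm_pos_iff, h2]; exact hs
  rw [dir, dif_neg h3]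
  apply Subtype.ext
  show ‖s • (Y : E3)‖⁻¹ • (s • (Y : E3)) = Y
  rw [h2, smul_smul, inv_mul_cancel₀ hs.ne', one_smul]

theorem cmd_neg_S2 : ContMDiff (𝓡 2) (𝓡 2) ∞ fun x : S2 => -x := by
  have := Fact.mk (@finrank_euclideanSpace_fin ℝ _ (2 + 1))
  exact contMDiff_neg_sphere

/-- the antipodal map times the identity -/
def ngS : (S2 × ℂ) ≃ₘ^∞⟮(𝓡 2).prod 𝓘(ℝ, ℂ), (𝓡 2).prod 𝓘(ℝ, ℂ)⟯ (S2 × ℂ) :=
  Diffeomorph.prodCongr
    { toEquiv := Equiv.neg S2
      contMDiff_toFun := cmd_neg_S2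
      contMDiff_invFun := cmd_neg_S2 }
    (Diffeomorph.refl 𝓘(ℝ, ℂ) ℂ ∞)

theorem ngS_apply (y : S2) (ζ : ℂ) : ngS (y, ζ) = (-y, ζ) := rfl

theorem dir_neg {v : E3} (hv : v ≠ 0) : dir (-v) = -dir v := by
  rw [dir, dif_neg (neg_ne_zero.mpr hv), dir, dif_neg hv]
  apply Subtype.ext
  show ‖-v‖⁻¹ • -v = -(‖v‖⁻¹ • v)
  rw [norm_neg, smul_neg]

variable {κ : Equiv.Perm E3} {k : ℤ} {X : Type*} [TopologicalSpace X] [ChartedSpace E4 X]

/-- change of the orientation of the tube -/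
def flipc (D : PB κ k X) : PB κ k X where
  H := D.H
  jb := D.jb
  jc p := D.jc (-p.1, p.2)
  rb := D.rb
  δ := D.δ
  f q := -D.f q
  N u := (D.N u).trans (ContinuousLinearEquiv.neg ℝ)
  H_loc := D.H_loc
  H_per := D.H_per
  H_mon := D.H_mon
  H_inj := D.H_inj
  rb_pos := D.rb_pos
  jb_per := D.jb_per
  jb_loc := D.jb_loc
  jb_inj := D.jb_inj
  jc_loc y ζ h := by
    have h1 : IsLocalDiffeomorphAt ((𝓡 2).prod 𝓘(ℝ, ℂ)) (𝓡 4) ∞ D.jc (ngS (y, ζ)) :=
      D.jc_loc (-y) ζ h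
    have h2 := ngS.isLocalDiffeomorph (y, ζ)
    exact IsLocalDiffeomorphAt.comp (hf := h2) (hg := h1) ..
  jc_inj y y' ζ ζ' h h' heq := by
    obtain ⟨h1, h2⟩ := D.jc_inj (-y) (-y') ζ ζ' h h' heq
    exact ⟨neg_injective h1, h2⟩
  glueb := D.glueb
  δ_pos := D.δ_pos
  δ_lt := D.δ_lt
  f_smooth u v h := (D.f_smooth u v h).neg
  f_per u v := by simp only [D.f_per]
  f_zero u := by simp only [D.f_zero, neg_zero]
  f_ne u v h hv := neg_ne_zero.mpr (D.f_ne u v h hv)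
  f_lt u v h := by rw [norm_neg]; exact D.f_lt u v h
  N_smooth := by
    have h := D.N_smooth.neg
    exact h
  f_deriv u := by
    have h := (D.f_deriv u).neg
    exact h
  gluec u v hv hv0 := by
    have h := D.gluec u v hv hv0
    show D.H _ = D.jc (-dir (-D.f (u, v)), _)
    rw [dir_neg (D.f_ne u v hv hv0), neg_neg, norm_neg]
    exact h
  disjb := D.disjb
  disjc y x t hx hC h0 h1 := D.disjc (-y) x t hx hC h0 h1
  disjbc y θ x₀ := D.disjbc (-y) θ x₀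
  cover q := by
    rcases D.cover q with h | ⟨y, h⟩ | h
    · exact Or.inl h
    · exact Or.inr (Or.inl ⟨-y, by rw [h]; simp⟩)
    · exact Or.inr (Or.inr h)

/-- rescaling of the disc -/
def scC (c : ℝ) (hc : c ≠ 0) : ℂ ≃L[ℝ] ℂ :=
  LinearEquiv.toContinuousLinearEquiv
    { toFun := fun z => c * z
      invFun := fun z => (c : ℂ)⁻¹ * z
      map_add' := fun x y => by ring
      map_smul' := fun r x => by simp; ring
      left_inv := fun x => by
        have : (c : ℂ) ≠ 0 := by exact_mod_cast hc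
        field_simp
      right_inv := fun x => by
        have : (c : ℂ) ≠ 0 := by exact_mod_cast hc
        field_simp }

theorem scC_apply (c : ℝ) (hc : c ≠ 0) (z : ℂ) : scC c hc z = c * z := rfl

def scS (c : ℝ) (hc : c ≠ 0) : (S2 × ℂ) ≃ₘ^∞⟮(𝓡 2).prod 𝓘(ℝ, ℂ), (𝓡 2).prod 𝓘(ℝ, ℂ)⟯ (S2 × ℂ) :=
  Diffeomorph.prodCongr (Diffeomorph.refl (𝓡 2) S2 ∞) (scC c hc).toDiffeomorph

theorem scS_apply (c : ℝ) (hc : c ≠ 0) (y : S2) (ζ : ℂ) : scS c hc (y, ζ) = (y, c * ζ) := rfl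

def scB (c : ℝ) (hc : c ≠ 0) : (ℝ × ℝ × ℂ) ≃ (ℝ × ℝ × ℂ) where
  toFun p := (p.1, p.2.1, c * p.2.2)
  invFun p := (p.1, p.2.1, (c : ℂ)⁻¹ * p.2.2)
  left_inv := by
    rintro ⟨a, b, z⟩
    have : (c : ℂ) ≠ 0 := by exact_mod_cast hc
    simp only
    congr 2
    field_simp
  right_inv := by
    rintro ⟨a, b, z⟩
    have : (c : ℂ) ≠ 0 := by exact_mod_cast hc
    simp only
    congr 2
    field_simp

theorem scB_ld (c : ℝ) (hc : c ≠ 0) (p : ℝ × ℝ × ℂ) :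
    IsLocalDiffeomorphAt 𝓘(ℝ, ℝ × ℝ × ℂ) 𝓘(ℝ, ℝ × ℝ × ℂ) ∞ (scB c hc) p := by
  apply ld_of_perm
  · exact contDiff_fst.prodMk ((contDiff_fst.comp contDiff_snd).prodMk
      (contDiff_const.mul (contDiff_snd.comp contDiff_snd)))
  · exact contDiff_fst.prodMk ((contDiff_fst.comp contDiff_snd).prodMk
      (contDiff_const.mul (contDiff_snd.comp contDiff_snd)))

theorem pd_of_tube (D : PB κ k X) (e : ℤ) {R : ℝ} {χ : ℝ → Equiv.Perm E3} (hχ : TFam R χ)
    (hRδ : R ≤ D.δ) {r : ℝ} (hr : 0 < r)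
    (hst : ∀ u y, ‖y‖ < r → D.f (u, χ u (ELe e u y)) = y) :
    ∃ ε₀ : ℝ, 0 < ε₀ ∧ ∀ ε : ℝ, 0 < ε → ε < ε₀ → Nonempty (PD κ ε k e X) := by
  have hδ := D.δ_lt
  have hδ0 := D.δ_pos
  have hR8 : R < 1 / 8 := hRδ.trans_lt hδ
  have hR4 : R ≤ 1 / 4 := by linarith
  have hrb := D.rb_pos
  refine ⟨min (min (D.rb / 5) (1 / 40)) (min r D.δ), by positivity, fun ε hε hε' => ?_⟩
  have e1 : ε < D.rb / 5 := hε'.trans_le ((min_le_left _ _).trans (min_le_left _ _))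
  have e2 : ε < 1 / 40 := hε'.trans_le ((min_le_left _ _).trans (min_le_right _ _))
  have e3 : ε < r := hε'.trans_le ((min_le_right _ _).trans (min_le_left _ _))
  have e4 : ε < D.δ := hε'.trans_le ((min_le_right _ _).trans (min_le_right _ _))
  have hεn : ‖(ε : ℂ)‖ = ε := by rw [Complex.norm_real, Real.norm_of_nonneg hε.le]
  have hb5 : ∀ {ζ : ℂ}, ‖ζ‖ < 5 → ‖(ε * ζ : ℂ)‖ < 1 := by
    intro ζ h
    rw [norm_mul, hεn]
    nlinarith [norm_nonneg ζ]
  have hc1 : ∀ {ζ : ℂ}, ‖ζ‖ < 1 → ‖(ε * ζ : ℂ)‖ < 1 := fun h => hb5 (by linarith)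
  have hεc : (ε : ℂ) ≠ 0 := by exact_mod_cast hε.ne'
  -- times
  have htime : ∀ x t, -(1 / 8) < t → t < 9 / 8 →
      -(1 / 8) < (Th0 χ (x, t)).2 ∧ (Th0 χ (x, t)).2 < 9 / 8 := by
    intro x t h0 h1
    rcases time_Th hχ x t with h | ⟨_, h⟩
    · rw [h]; exact ⟨h0, h1⟩
    · have := abs_lt.mp h; constructor <;> linarith
  have htime2 : ∀ x t, 0 ≤ t → t < 1 → 0 ≤ (Th0 χ (x, t)).2 ∧ (Th0 χ (x, t)).2 < 1 := by
    intro x t h0 h1
    rcases time_Th hχ x t with h | ⟨_, h⟩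
    · rw [h]; exact ⟨h0, h1⟩
    · have := abs_lt.mp h; constructor <;> linarith
  have hnear : ∀ {x : E3} {t : ℝ}, |x 2| < 1 / 8 → Th0 χ (x, t) = (x, t) := by
    intro x t hx
    apply Th0_far hχ
    have h1 : 1 / 4 ≤ |Int.fract (x 2) - 1 / 2| := by
      obtain ⟨a1, a2⟩ := abs_lt.mp hx
      rcases lt_or_ge (x 2) 0 with h | h
      · have hf : Int.fract (x 2) = x 2 + 1 := by
          rw [Int.fract_eq_iff]
          exact ⟨by linarith, by linarith, -1, by push_cast; ring⟩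
        rw [hf, abs_of_nonneg (by linarith)]; linarith
      · rw [Int.fract_eq_self.mpr ⟨h, by linarith⟩, abs_of_nonpos (by linarith)]; linarith
    have h2 := PiLp.norm_apply_le (vv (x, t)) 2
    simp only [vv, pt_two', Real.norm_eq_abs] at h2
    simp only [vv]
    linarith
  refine ⟨{
    H := fun q => D.H (Th0 χ q)
    jb := fun p => D.jb (p.1, p.2.1, ε * p.2.2)
    jc := fun p => D.jc (p.1, ε * p.2)
    H_loc := ?_
    H_per := ?_
    H_mon := ?_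
    H_inj := ?_
    jb_per := ?_
    jb_loc := ?_
    jb_inj := ?_
    jc_loc := ?_
    jc_inj := ?_
    glueb := ?_
    gluec := ?_
    disjb := ?_
    disjc := ?_
    disjbc := ?_
    cover := ?_ }⟩
  · intro x t h0 h1 hx hC
    have h2 := D.H_loc (Th0 χ (x, t)).1 (Th0 χ (x, t)).2 (htime x t h0 h1).1 (htime x t h0 h1).2
      ((offAx_Th hR4 hχ x t).mpr hx) (mt (onC_Th hR4 hχ x t).mp hC)
    exact IsLocalDiffeomorphAt.comp (hf := Th_ld hR4 hχ (x, t)) (hg := h2) ..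
  · intro x t m h0 h1 hx
    show D.H (Th0 χ (x + vec m, t)) = D.H (Th0 χ (x, t))
    rw [Th0_vec hχ, D.H_per _ _ m (htime x t h0 h1).1 (htime x t h0 h1).2
      ((offAx_Th hR4 hχ x t).mpr hx)]
  · intro x t h0 h1 hx
    show D.H (Th0 χ (κ x, t)) = D.H (Th0 χ (x, t + 1))
    rw [Th0_time_far hχ (κ x) (t := t) (by rw [abs_of_nonpos (by linarith)]; linarith),
      Th0_time_far hχ x (t := t + 1) (by rw [abs_of_nonneg (by linarith)]; linarith)]
    exact D.H_mon x t h0 h1 hx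
  · intro x y s t hx hxC hy hyC hs hs1 ht ht1 h
    have h' : D.H (Th0 χ (x, s)) = D.H (Th0 χ (y, t)) := h
    obtain ⟨h2, m, hm⟩ := D.H_inj (Th0 χ (x, s)).1 (Th0 χ (y, t)).1 (Th0 χ (x, s)).2
      (Th0 χ (y, t)).2 ((offAx_Th hR4 hχ x s).mpr hx) (mt (onC_Th hR4 hχ x s).mp hxC)
      ((offAx_Th hR4 hχ y t).mpr hy) (mt (onC_Th hR4 hχ y t).mp hyC) (htime2 x s hs hs1).1
      (htime2 x s hs hs1).2 (htime2 y t ht ht1).1 (htime2 y t ht ht1).2 h'
    have h3 : Th0 χ (y, t) = Th0 χ (x + vec m, s) := by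
      rw [Th0_vec hχ]
      exact Prod.ext hm h2.symm
    have h4 := Th0_inj hR4 hχ h3
    exact ⟨(congrArg Prod.snd h4).symm, m, congrArg Prod.fst h4⟩
  · intro θ x ζ a b
    exact D.jb_per θ x (ε * ζ) a b
  · intro θ x ζ h
    have h1 : IsLocalDiffeomorphAt 𝓘(ℝ, ℝ × ℝ × ℂ) (𝓡 4) ∞ D.jb (scB ε hε.ne' (θ, x, ζ)) :=
      D.jb_loc θ x (ε * ζ) (hb5 h)
    exact IsLocalDiffeomorphAt.comp (hf := scB_ld ε hε.ne' (θ, x, ζ)) (hg := h1) ..
  · intro θ x ζ θ' x' ζ' h h' heq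
    obtain ⟨ha, hb, hc⟩ := D.jb_inj θ x (ε * ζ) θ' x' (ε * ζ') (hb5 h) (hb5 h') heq
    exact ⟨ha, hb, mul_left_cancel₀ hεc hc⟩
  · intro y ζ h
    have h1 : IsLocalDiffeomorphAt ((𝓡 2).prod 𝓘(ℝ, ℂ)) (𝓡 4) ∞ D.jc (scS ε hε.ne' (y, ζ)) :=
      D.jc_loc y (ε * ζ) (hc1 h)
    have h2 := (scS ε hε.ne').isLocalDiffeomorph (y, ζ)
    exact IsLocalDiffeomorphAt.comp (hf := h2) (hg := h1) ..
  · intro y y' ζ ζ' h h' heq
    obtain ⟨ha, hc⟩ := D.jc_inj y y' (ε * ζ) (ε * ζ') (hc1 h) (hc1 h') heq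
    exact ⟨ha, mul_left_cancel₀ hεc hc⟩
  · intro θ x t s h0 h1 hs hs1
    have hes : 0 < ε * s := by positivity
    have hes1 : ε * s < D.rb := by nlinarith
    have h2 := D.glueb θ x t (ε * s) h0 h1 hes hes1
    have h3 : (((ε * s : ℝ)) : ℂ) = (ε : ℂ) * s := by push_cast; ring
    rw [h3] at h2
    show D.jb (θ, x, ε * (s * ex (t - 1 / 2))) = D.H (Th0 χ (_, t))
    rw [← mul_assoc, h2, hnear]
    rw [pt_two']
    have h4 := Complex.abs_re_le_norm ((ε : ℂ) * s * ex (θ + k * (t - 1 / 2)))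
    rw [norm_mul, norm_mul, hεn, Complex.norm_real, Real.norm_of_nonneg hs.le, ex,
      Complex.norm_exp_ofReal_mul_I, mul_one] at h4
    rw [ex]
    nlinarith
  · intro Y u s hs hs1
    have hes : 0 < ε * s := by positivity
    have hes1 : ε * s < ε := by nlinarith
    obtain ⟨d1, d2⟩ := dir_of_smul (Y := Y) hes
    set y : E3 := (ε * s) • (Y : E3) with hy
    set v : E3 := ELe e u y with hv
    have hvn : ‖v‖ = ε * s := by rw [hv, norm_ELe, d2]
    have hv0 : v ≠ 0 := by rw [← norm_pos_iff, hvn]; exact hes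
    set v' : E3 := χ u v with hv'
    have hv'0 : v' ≠ 0 := by
      intro h
      apply hv0
      apply (χ u).injective
      rw [hχ.zero]; exact h
    have hv'δ : ‖v'‖ < D.δ := by
      rcases lt_or_ge ‖v‖ R with h | h
      · exact (hχ.small h).trans_le hRδ
      · rw [hv', hχ.supp u v h, hvn]; linarith
    have hf : D.f (u, v') = y := hst u y (by rw [d2]; linarith)
    have hg := D.gluec u v' hv'δ hv'0
    rw [hf, d1, d2] at hg
    -- the point
    have hvc : v = pt ((ε * s * ex (e * thc u) * yc Y).re) ((ε * s * ex (e * thc u) * yc Y).im)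
        (ε * s * (Y : E3) 0) := by
      rw [hv, ELe_apply]
      have h1 : ex (e * thc u) * ((y 1 : ℝ) + (y 2 : ℝ) * I) =
          (ε : ℂ) * s * ex (e * thc u) * yc Y := by
        have g1 : y 1 = ε * s * (Y : E3) 1 := rfl
        have g2 : y 2 = ε * s * (Y : E3) 2 := rfl
        rw [g1, g2, yc]; push_cast; ring
      rw [h1]
      rfl
    have hvb := fun i => abs_lt.mp (co_lt (v := v) (r := 1 / 8) (by rw [hvn]; linarith) i)
    have hvv : vv (pt (1 / 2 + v 0) u (1 / 2 + v 2), 1 / 2 + v 1) = v := by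
      have f : ∀ {a : ℝ}, -(1 / 8) < a → a < 1 / 8 → Int.fract (1 / 2 + a) = 1 / 2 + a := by
        intro a h0 h1
        exact Int.fract_eq_self.mpr ⟨by linarith, by linarith⟩
      simp only [vv]
      apply ext3
      · simp only [pt_zero']
        rw [f (hvb 0).1 (hvb 0).2]; ring
      · simp only [pt_one']; ring
      · simp only [pt_two']
        rw [f (hvb 2).1 (hvb 2).2]; ring
    have hth : Th0 χ (pt (1 / 2 + v 0) u (1 / 2 + v 2), 1 / 2 + v 1) =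
        (pt (1 / 2 + v' 0) u (1 / 2 + v' 2), 1 / 2 + v' 1) := by
      simp only [Th0, dd]
      rw [hvv]
      simp only [pt_one']
      rw [← hv']
      apply Prod.ext
      · apply ext3 <;> simp
      · simp
    have g0 : (ε * s * ex (e * thc u) * yc Y).re = v 0 := by rw [hvc, pt_zero']
    have g1 : (ε * s * ex (e * thc u) * yc Y).im = v 1 := by rw [hvc, pt_one']
    have g2 : ε * s * (Y : E3) 0 = v 2 := by rw [hvc, pt_two']
    show D.jc (Y, ε * (s * ex u)) = D.H (Th0 χ (pt (1 / 2 + (ε * s * ex (e * thc u) * yc Y).re) u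
      (1 / 2 + ε * s * (Y : E3) 0), 1 / 2 + (ε * s * ex (e * thc u) * yc Y).im))
    rw [g0, g1, g2, hth, hg]
    congr 2
    push_cast; ring
  · intro θ x₀ x t hx hC h0 h1
    show D.jb (θ, x₀, ε * 0) ≠ D.H (Th0 χ (x, t))
    rw [mul_zero]
    exact D.disjb θ x₀ _ _ ((offAx_Th hR4 hχ x t).mpr hx) (mt (onC_Th hR4 hχ x t).mp hC)
      (htime2 x t h0 h1).1 (htime2 x t h0 h1).2
  · intro y x t hx hC h0 h1
    show D.jc (y, ε * 0) ≠ D.H (Th0 χ (x, t))
    rw [mul_zero]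
    exact D.disjc y _ _ ((offAx_Th hR4 hχ x t).mpr hx) (mt (onC_Th hR4 hχ x t).mp hC)
      (htime2 x t h0 h1).1 (htime2 x t h0 h1).2
  · intro y θ x₀
    show D.jc (y, ε * 0) ≠ D.jb (θ, x₀, ε * 0)
    rw [mul_zero]
    exact D.disjbc y θ x₀
  · intro q
    rcases D.cover q with ⟨θ, x₀, h⟩ | ⟨y, h⟩ | ⟨x, t, hx, hC, h0, h1, h⟩
    · exact Or.inl ⟨θ, x₀, by rw [h, mul_zero]⟩
    · exact Or.inr (Or.inl ⟨y, by rw [h, mul_zero]⟩)
    · obtain ⟨⟨x', t'⟩, hp⟩ := Th0_surj hR4 hχ (x, t)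
      refine Or.inr (Or.inr ⟨x', t', ?_, ?_, ?_⟩)
      · rw [← offAx_Th hR4 hχ x' t', hp]; exact hx
      · rw [← onC_Th hR4 hχ x' t', hp]; exact hC
      · have ht' : 0 ≤ t' ∧ t' < 1 := by
          rcases time_Th hχ x' t' with h2 | ⟨h2, _⟩
          · rw [hp] at h2
            simp only at h2
            rw [← h2]; exact ⟨h0, h1⟩
          · have := abs_lt.mp h2; constructor <;> linarith
        refine ⟨ht'.1, ht'.2, ?_⟩
        show q = D.H (Th0 χ (x', t'))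
        rw [hp]; exact h

end

end Pool.Agent.TSB
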